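import Pool.Agent.H60.PE.CPf

/-!
# The case without principal frame

In a `BF` the square of the trace `m` of the second fundamental form is constant.
-/

namespace Pool.H60.PE

open Matrix

variable {K : Type} [Field K]

theorem BF.const [CharZero K] (B : BF K) :
    B.f1 (B.m ⬝ᵥ B.m) = 0 ∧ B.f2 (B.m ⬝ᵥ B.m) = 0 := by
  have h2 : (2 : K) ≠ 0 := two_ne_zero
  have dd := cpf_der_dot (K := K)
  have h00 : ∀ D : Derivation ℤ K K, D (0 : K) = 0 := fun D => map_zero D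
  have cm : ∀ v : Fin 4 → K, dv B.f1 (dv B.f2 v) - dv B.f2 (dv B.f1 v)
      = -B.w1 • dv B.f2 v - B.w2 • dv B.f1 v := by
    intro v
    funext k
    exact B.comm (v k)
  have o21 : B.v2 ⬝ᵥ B.v1 = 2 := by rw [dotProduct_comm]; exact B.o12
  have m1 : B.m ⬝ᵥ B.v1 = 0 := by rw [dotProduct_comm]; exact B.n1
  have m2 : B.m ⬝ᵥ B.v2 = 0 := by rw [dotProduct_comm]; exact B.n2
  -- `f2 m = k v2`
  obtain ⟨k, hk⟩ : ∃ k : K, dv B.f2 B.m = k • B.v2 := by
    have h := cm B.v2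
    rw [B.s22, B.s12] at h
    simp only [cpf_dv_add, cpf_dv_smul, B.s12, B.s22, map_neg] at h
    refine ⟨-B.f1 B.w2 + B.f2 B.w1 - 2 * B.w1 * B.w2, ?_⟩
    funext l
    have hl := congrFun h l
    simp only [Pi.add_apply, Pi.sub_apply, Pi.smul_apply, smul_eq_mul] at hl ⊢
    linear_combination -hl
  have hM2 : B.f2 (B.m ⬝ᵥ B.m) = 0 := by
    rw [dd, hk, smul_dotProduct, dotProduct_smul, B.n2, m2]
    simp
  refine ⟨?_, hM2⟩
  -- `k = - m.m / 2`
  have hkk : 2 * k = -(B.m ⬝ᵥ B.m) := by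
    have h := dd B.f2 B.m B.v1
    rw [m1, h00, hk, B.s21, smul_dotProduct, dotProduct_add, dotProduct_smul, o21, m1,
      smul_eq_mul, smul_zero, zero_add] at h
    linear_combination -h
  have hk1 : 2 * B.f1 k = -B.f1 (B.m ⬝ᵥ B.m) := by
    have h := congrArg B.f1 hkk
    rw [map_neg, two_mul, map_add] at h
    linear_combination h
  -- `f1 m . v1 = - m.nu`
  have g1 : dv B.f1 B.m ⬝ᵥ B.v1 = -(B.m ⬝ᵥ B.nu) := by
    have h := dd B.f1 B.m B.v1
    rw [m1, h00, B.s11, dotProduct_add, dotProduct_smul, m1, smul_zero, zero_add] at h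
    linear_combination -h
  have hMM : B.f1 (B.m ⬝ᵥ B.m) = 2 * (dv B.f1 B.m ⬝ᵥ B.m) := by
    rw [dd, dotProduct_comm B.m (dv B.f1 B.m)]
    ring
  -- `f2 nu`
  have hnu : B.m ⬝ᵥ dv B.f2 B.nu = dv B.f1 B.m ⬝ᵥ B.m + 2 * B.w2 * (B.m ⬝ᵥ B.nu) := by
    have h := cm B.v1
    rw [B.s21, B.s11] at h
    simp only [cpf_dv_add, cpf_dv_smul, B.s11, B.s21] at h
    have h' := congrArg (fun v => B.m ⬝ᵥ v) h
    simp only [dotProduct_add, dotProduct_sub, dotProduct_smul, smul_eq_mul, m1, mul_zero,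
      zero_add, add_zero] at h'
    rw [dotProduct_comm B.m (dv B.f1 B.m)] at h'
    linear_combination -h'
  -- first tangential component of the Laplacian
  have hl := congrArg (fun v => v ⬝ᵥ B.v1) B.lap
  simp only [add_dotProduct, sub_dotProduct, smul_dotProduct, smul_eq_mul, m1, mul_zero] at hl
  have a1 : dv B.f1 (dv B.f2 B.m) ⬝ᵥ B.v1 = 2 * B.f1 k - 2 * k * B.w1 := by
    rw [hk, cpf_dv_smul, B.s12, add_dotProduct, smul_dotProduct, smul_dotProduct, add_dotProduct,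
      smul_dotProduct, o21, m1]
    simp only [smul_eq_mul]
    ring
  have a2 : dv B.f2 (dv B.f1 B.m) ⬝ᵥ B.v1
      = -(dv B.f2 B.m ⬝ᵥ B.nu) - B.m ⬝ᵥ dv B.f2 B.nu
        - (B.w2 * (dv B.f1 B.m ⬝ᵥ B.v1) + dv B.f1 B.m ⬝ᵥ B.m) := by
    have h := dd B.f2 (dv B.f1 B.m) B.v1
    rw [g1, map_neg, dd, B.s21, dotProduct_add, dotProduct_smul, smul_eq_mul, g1] at h
    rw [g1]
    linear_combination -h
  have a3 : dv B.f2 B.m ⬝ᵥ B.nu = 0 := by
    rw [hk, smul_dotProduct, B.k2, smul_zero]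
  have a4 : dv B.f2 B.m ⬝ᵥ B.v1 = 2 * k := by
    rw [hk, smul_dotProduct, o21, smul_eq_mul]
    ring
  rw [a1, a2, a3, a4, g1, hnu] at hl
  have : 2 * B.f1 (B.m ⬝ᵥ B.m) = 0 := by
    linear_combination -hl + hk1 + hMM
  exact (mul_eq_zero.1 this).resolve_left h2

end Pool.H60.PE
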