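import Pool.Agent.H60.PE.DC
import Pool.Agent.H99.N2.Alg

/-!
# The algebraic theorem without reality conditions

`NG` is the list of the structure equations `Pool.Agent.H99.N2.NF` without the three conditions
which say that certain vectors of the normal bundle are not isotropic.  If such a vector is
isotropic and not zero the equations are solved by hand (cases C and D); otherwise
`Pool.Agent.H99.N2.alg` applies.
-/

namespace Pool.H60.PE

open Pool.Agent.H99.N2 (NF alg)

structure NG (K : Type) [Field K] where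
  e1 : Derivation ℤ K K
  e2 : Derivation ℤ K K
  p : K
  q : K
  w : K
  xi : K
  eta : K
  s1 : K
  s2 : K
  c : K
  comm : ∀ f : K, e1 (e2 f) - e2 (e1 f) = -p * e1 f + q * e2 f
  hc1 : e1 c = 0
  hc2 : e2 c = 0
  hc : c ≠ 0
  hw : w ≠ 0
  cod1 : e2 (w * (1 + xi)) = 2 * p * w * xi + w * eta * s2
  cod2 : e2 (w * eta) = 2 * p * w * eta - w * (1 + xi) * s2
  cod3 : e1 (w * (1 - xi)) = -2 * q * w * xi - w * eta * s1
  cod4 : e1 (w * eta) = 2 * q * w * eta + w * (1 - xi) * s1
  gauss : e1 q + e2 p = w ^ 2 * (1 - xi ^ 2 - eta ^ 2) / 4 + p ^ 2 + q ^ 2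
  ricci : e1 s2 - e2 s1 = -p * s1 + q * s2
  tan1 : (2 + xi) * e1 w + eta * w * s1 = 0
  tan2 : (2 - xi) * e2 w - eta * w * s2 = 0
  nor1 : e1 (e1 w) - w * s1 ^ 2 + e2 (e2 w) - w * s2 ^ 2 - p * e2 w - q * e1 w
      = w ^ 3 * (1 + xi ^ 2) / 2 - c * w
  nor2 : 2 * e1 w * s1 + w * e1 s1 + 2 * e2 w * s2 + w * e2 s2 - p * w * s2 - q * w * s1
      = w ^ 3 * xi * eta / 2

variable {K : Type} [Field K]

/-- Exchange of the two principal directions. -/
def NG.swap (D : NG K) : NG K where
  e1 := D.e2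
  e2 := D.e1
  p := D.q
  q := D.p
  w := D.w
  xi := -D.xi
  eta := -D.eta
  s1 := D.s2
  s2 := D.s1
  c := D.c
  comm := fun f => by linear_combination -D.comm f
  hc1 := D.hc2
  hc2 := D.hc1
  hc := D.hc
  hw := D.hw
  cod1 := by
    have h := D.cod3
    have e : D.w * (1 + -D.xi) = D.w * (1 - D.xi) := by ring
    rw [e, h]
    ring
  cod2 := by
    have h := D.cod4
    have e : D.w * -D.eta = -(D.w * D.eta) := by ring
    rw [e, map_neg, h]
    ring
  cod3 := by
    have h := D.cod1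
    have e : D.w * (1 - -D.xi) = D.w * (1 + D.xi) := by ring
    rw [e, h]
    ring
  cod4 := by
    have h := D.cod2
    have e : D.w * -D.eta = -(D.w * D.eta) := by ring
    rw [e, map_neg, h]
    ring
  gauss := by linear_combination D.gauss
  ricci := by linear_combination -D.ricci
  tan1 := by linear_combination D.tan2
  tan2 := by linear_combination D.tan1
  nor1 := by linear_combination D.nor1
  nor2 := by linear_combination D.nor2

theorem calg_der_i [CharZero K] (E : Derivation ℤ K K) {i : K} (hi : i ^ 2 = -1) : E i = 0 := by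
  have hi0 : i ≠ 0 := by
    rintro rfl
    norm_num at hi
  have h := congrArg E hi
  rw [pow_two, Derivation.leibniz, map_neg, Derivation.map_one_eq_zero, smul_eq_mul] at h
  have h2 : (2 * i) * E i = 0 := by linear_combination h
  exact (mul_eq_zero.1 h2).resolve_left (mul_ne_zero two_ne_zero hi0)

theorem calg_iso {a b : K} (h : a ^ 2 + b ^ 2 = 0) (hn : ¬ (a = 0 ∧ b = 0)) :
    a ≠ 0 ∧ ∃ j : K, j ^ 2 = -1 ∧ b = j * a := by
  have ha : a ≠ 0 := by
    rintro rfl
    apply hn
    refine ⟨rfl, ?_⟩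
    have h2 : b ^ 2 = 0 := by linear_combination h
    exact (pow_eq_zero_iff two_ne_zero).1 h2
  refine ⟨ha, b / a, ?_, by field_simp⟩
  rw [div_pow, div_eq_iff (pow_ne_zero 2 ha)]
  linear_combination h

/-- The difference of the principal curvature vectors is isotropic. -/
theorem NG.caseC [CharZero K] (D : NG K) (h : D.xi ^ 2 + D.eta ^ 2 = 0)
    (hn : ¬ (D.xi = 0 ∧ D.eta = 0)) : D.e1 D.w = 0 ∧ D.e2 D.w = 0 := by
  obtain ⟨hx, j, hj, he⟩ := calg_iso h hn
  have hj0 : j ≠ 0 := by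
    rintro rfl
    norm_num at hj
  have hw := D.hw
  have d1 := calg_der_i D.e1 hj
  have d2 := calg_der_i D.e2 hj
  have c1 := D.cod1
  have c2 := D.cod2
  have c3 := D.cod3
  have c4 := D.cod4
  have t1 := D.tan1
  have t2 := D.tan2
  rw [he] at c1 c2 c3 c4 t1 t2
  simp only [mul_add, mul_sub, mul_one, map_add, map_sub, Derivation.leibniz, smul_eq_mul, d1, d2]
    at c1 c2 c3 c4
  have k2 : j * D.e2 D.w = D.w * D.s2 := by
    linear_combination j * c1 - c2 + D.w * D.xi * D.s2 * hj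
  have k1 : j * D.e1 D.w = D.w * D.s1 := by
    linear_combination j * c3 + c4 - D.w * D.xi * D.s1 * hj
  have s2 : D.s2 = 0 := by
    have : 2 * D.w * D.s2 = 0 := by
      linear_combination j * t2 - (2 - D.xi) * k2 + D.xi * D.w * D.s2 * hj
    exact (mul_eq_zero.1 this).resolve_left (mul_ne_zero two_ne_zero hw)
  have s1 : D.s1 = 0 := by
    have : 2 * D.w * D.s1 = 0 := by
      linear_combination j * t1 - (2 + D.xi) * k1 - D.xi * D.w * D.s1 * hj
    exact (mul_eq_zero.1 this).resolve_left (mul_ne_zero two_ne_zero hw)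
  rw [s1, mul_zero] at k1
  rw [s2, mul_zero] at k2
  exact ⟨(mul_eq_zero.1 k1).resolve_left hj0, (mul_eq_zero.1 k2).resolve_left hj0⟩

/-- The vector `N + 2 a_1` is isotropic. -/
theorem NG.caseD [CharZero K] (D : NG K) (h : (2 + D.xi) ^ 2 + D.eta ^ 2 = 0)
    (hn : ¬ (2 + D.xi = 0 ∧ D.eta = 0)) : D.e1 D.w = 0 ∧ D.e2 D.w = 0 := by
  obtain ⟨ht, j, hj, he⟩ := calg_iso h hn
  obtain ⟨t, htx⟩ : ∃ t : K, 2 + D.xi = t := ⟨_, rfl⟩
  rw [htx] at ht he
  have hxi : D.xi = t - 2 := by linear_combination htx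
  have hj0 : j ≠ 0 := by
    rintro rfl
    norm_num at hj
  have hw := D.hw
  have h2 : (2 : K) ≠ 0 := two_ne_zero
  have d1 := calg_der_i D.e1 hj
  have d2 := calg_der_i D.e2 hj
  have n21 : D.e1 (2 : K) = 0 := by
    have : (2 : K) = 1 + 1 := by norm_num
    rw [this, map_add, Derivation.map_one_eq_zero, add_zero]
  have n22 : D.e2 (2 : K) = 0 := by
    have : (2 : K) = 1 + 1 := by norm_num
    rw [this, map_add, Derivation.map_one_eq_zero, add_zero]
  have c1 := D.cod1
  have c2 := D.cod2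
  have c3 := D.cod3
  have c4 := D.cod4
  have t1 := D.tan1
  have t2 := D.tan2
  rw [he, hxi] at c1 c2 c3 c4 t1 t2
  simp only [mul_add, mul_sub, mul_one, map_add, map_sub, Derivation.leibniz, smul_eq_mul, d1, d2,
    n21, n22] at c1 c2 c3 c4
  -- `j e1 w = w s1`
  have k1 : j * D.e1 D.w = D.w * D.s1 := by
    have h3 : t * (j * D.e1 D.w - D.w * D.s1) = 0 := by
      linear_combination j * t1 - t * D.w * D.s1 * hj
    have := (mul_eq_zero.1 h3).resolve_left ht
    linear_combination this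
  have hq : D.q = 0 := by
    have h3 : 4 * (D.w * j) * D.q = 0 := by
      linear_combination -j * c3 - c4 + 3 * k1 + D.w * t * D.s1 * hj
    exact (mul_eq_zero.1 h3).resolve_left (mul_ne_zero (by norm_num) (mul_ne_zero hw hj0))
  have k2 : j * D.e2 D.w = 4 * D.p * D.w * j + D.w * D.s2 := by
    linear_combination -j * c1 + c2 - D.w * t * D.s2 * hj
  have hs2 : j * D.s2 = D.p * (4 - t) := by
    have h3 : 4 * D.w * (j * D.s2 - D.p * (4 - t)) = 0 := by
      linear_combination -t2 - (4 - t) * j * k2 - (4 - t) * (4 * D.p * D.w - D.e2 D.w) * hj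
    have := (mul_eq_zero.1 h3).resolve_left (mul_ne_zero (by norm_num) hw)
    linear_combination this
  have f2 : D.e2 D.w = D.p * t * D.w := by
    linear_combination -j * k2 + D.e2 D.w * hj - 4 * D.p * D.w * hj - D.w * hs2
  have ft2 : D.e2 t = D.p * (7 * t - 2 * t ^ 2 - 4) := by
    have h3 : D.w * (D.e2 t - D.p * (7 * t - 2 * t ^ 2 - 4)) = 0 := by
      linear_combination -j * c2 + (t * D.e2 D.w + D.w * D.e2 t - 2 * D.p * D.w * t) * hj
        + D.w * (t - 1) * hs2 - t * f2
    have := (mul_eq_zero.1 h3).resolve_left hw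
    linear_combination this
  obtain ⟨s, hs⟩ : ∃ s : K, j * D.s1 = s := ⟨_, rfl⟩
  have f1 : D.e1 D.w = -s * D.w := by
    linear_combination -j * k1 + D.e1 D.w * hj - D.w * hs
  have ft1 : D.e1 t = s * (2 * t - 3) := by
    have h3 : D.w * (D.e1 t - s * (2 * t - 3)) = 0 := by
      rw [hq] at c4
      linear_combination -j * c4 + (t * D.e1 D.w + D.w * D.e1 t) * hj
        - D.w * (3 - t) * hs - t * f1
    have := (mul_eq_zero.1 h3).resolve_left hw
    linear_combination this
  -- Ricci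
  have r1 : D.e1 (j * D.s2) - D.e2 (j * D.s1) = -D.p * s := by
    simp only [Derivation.leibniz, smul_eq_mul, d1, d2]
    have hr := D.ricci
    rw [hq] at hr
    linear_combination j * hr - D.p * hs
  have n41 : D.e1 (4 : K) = 0 := by
    have : (4 : K) = 2 + 2 := by norm_num
    rw [this, map_add, n21, add_zero]
  have n42 : D.e2 (4 : K) = 0 := by
    have : (4 : K) = 2 + 2 := by norm_num
    rw [this, map_add, n22, add_zero]
  rw [hs2, hs] at r1
  simp only [Derivation.leibniz, smul_eq_mul, map_sub, n41, ft1] at r1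
  have cw := D.comm D.w
  rw [f1, f2, hq] at cw
  simp only [Derivation.leibniz, smul_eq_mul, map_neg, neg_mul, ft1, f1, f2] at cw
  have hp1 : D.e1 D.p = 0 := by
    have h3 : 4 * D.w * D.e1 D.p = 0 := by
      linear_combination D.w * r1 + cw
    exact (mul_eq_zero.1 h3).resolve_left (mul_ne_zero (by norm_num) hw)
  have g : 4 * D.e2 D.p = D.w ^ 2 * (4 * t - 3) + 4 * D.p ^ 2 := by
    have hg := D.gauss
    rw [hq, he, hxi, map_zero] at hg
    linear_combination 4 * hg - D.w ^ 2 * t ^ 2 * hj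
  have hs0 : s = 0 := by
    have cp := D.comm D.p
    rw [hp1, hq, map_zero] at cp
    have h3 := congrArg D.e1 g
    have n31 : D.e1 (3 : K) = 0 := by
      have : (3 : K) = 2 + 1 := by norm_num
      rw [this, map_add, n21, Derivation.map_one_eq_zero, add_zero]
    simp only [pow_two, Derivation.leibniz, smul_eq_mul, map_add, map_sub, n41, n31, hp1, ft1,
      f1] at h3
    have h4 : 6 * D.w ^ 2 * s = 0 := by
      linear_combination h3 - 4 * cp
    exact (mul_eq_zero.1 h4).resolve_left (mul_ne_zero (by norm_num) (pow_ne_zero 2 hw))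
  have hs1 : D.s1 = 0 := by
    rw [hs0] at hs
    exact (mul_eq_zero.1 hs).resolve_left hj0
  refine ⟨by rw [f1, hs0]; ring, ?_⟩
  by_cases hp : D.p = 0
  · rw [f2, hp]; ring
  exfalso
  -- the second normal equation
  have es2 : j * D.e2 D.s2 = (4 - t) * D.e2 D.p - D.p * (D.p * (7 * t - 2 * t ^ 2 - 4)) := by
    have h3 := congrArg D.e2 hs2
    simp only [Derivation.leibniz, smul_eq_mul, map_sub, n42, d2, ft2] at h3
    linear_combination h3
  have n2 := D.nor2
  rw [hs1, hq, he, hxi, f2, map_zero] at n2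
  have E2 : 4 * (t + 4) * D.p ^ 2 + D.w ^ 2 * (-2 * t ^ 2 + 15 * t - 12) = 0 := by
    have h3 : D.w * (4 * (t + 4) * D.p ^ 2 + D.w ^ 2 * (-2 * t ^ 2 + 15 * t - 12)) = 0 := by
      linear_combination 4 * j * n2 - 4 * D.w * es2 - (8 * D.p * t * D.w - 4 * D.p * D.w) * hs2
        - D.w * (4 - t) * g + 2 * D.w ^ 3 * (t - 2) * t * hj
    exact (mul_eq_zero.1 h3).resolve_left hw
  have n151 : D.e2 (15 : K) = 0 := by
    have : (15 : K) = 4 + 4 + 4 + 2 + 1 := by norm_num
    rw [this]
    simp only [map_add, n42, n22, Derivation.map_one_eq_zero, add_zero]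
  have n121 : D.e2 (12 : K) = 0 := by
    have : (12 : K) = 4 + 4 + 4 := by norm_num
    rw [this]
    simp only [map_add, n42, add_zero]
  have E3 : 4 * D.p ^ 2 * (-2 * t ^ 2 + 9 * t + 4)
      + D.w ^ 2 * (4 * t ^ 3 - 20 * t ^ 2 + 123 * t - 84) = 0 := by
    have h3 := congrArg D.e2 E2
    simp only [pow_two, Derivation.leibniz, smul_eq_mul, map_add, map_sub, map_neg, map_zero, n42,
      n22, n151, n121, ft2, f2] at h3
    have h4 : D.p * (4 * D.p ^ 2 * (-2 * t ^ 2 + 9 * t + 4)
      + D.w ^ 2 * (4 * t ^ 3 - 20 * t ^ 2 + 123 * t - 84)) = 0 := by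
      linear_combination h3 - 2 * (t + 4) * D.p * g
    exact (mul_eq_zero.1 h4).resolve_left hp
  have E4 : 11 * t ^ 3 - 27 * t ^ 2 + 114 * t - 72 = 0 := by
    have h3 : 4 * D.w ^ 2 * (11 * t ^ 3 - 27 * t ^ 2 + 114 * t - 72) = 0 := by
      linear_combination (t + 4) * E3 - (-2 * t ^ 2 + 9 * t + 4) * E2
    exact (mul_eq_zero.1 h3).resolve_left (mul_ne_zero (by norm_num) (pow_ne_zero 2 hw))
  have E5 : (33 * t ^ 2 - 54 * t + 114) * D.e2 t = 0 := by
    have h3 := congrArg D.e2 E4
    have nn : ∀ n : ℕ, D.e2 (n : K) = 0 := fun n => by simp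
    have n11 : D.e2 (11 : K) = 0 := by exact_mod_cast nn 11
    have n27 : D.e2 (27 : K) = 0 := by exact_mod_cast nn 27
    have n114 : D.e2 (114 : K) = 0 := by exact_mod_cast nn 114
    have n72 : D.e2 (72 : K) = 0 := by exact_mod_cast nn 72
    simp only [pow_succ, pow_zero, one_mul, Derivation.leibniz, smul_eq_mul, map_add, map_sub,
      map_zero, n11, n27, n114, n72] at h3
    linear_combination h3
  rcases mul_eq_zero.1 E5 with h5 | h5
  · have : (1913262 : K) = 0 := by
      linear_combination (10773 - 11121 * t) * E4 + (23587 - 6624 * t + 3707 * t ^ 2) * h5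
    norm_num at this
  · rw [ft2] at h5
    have h6 := (mul_eq_zero.1 h5).resolve_left hp
    have : (256 : K) = 0 := by
      linear_combination (2943 - 1058 * t) * E4 - (53038 - 10103 * t + 5819 * t ^ 2) * h6
    norm_num at this

theorem NG.const [CharZero K] (D : NG K) : D.e1 D.w = 0 ∧ D.e2 D.w = 0 := by
  by_cases h1 : D.xi ^ 2 + D.eta ^ 2 ≠ 0 ∨ (D.xi = 0 ∧ D.eta = 0)
  swap
  · push Not at h1
    exact D.caseC h1.1 (fun h => h1.2 h.1 h.2)
  by_cases h2 : (2 + D.xi) ^ 2 + D.eta ^ 2 ≠ 0 ∨ (2 + D.xi = 0 ∧ D.eta = 0)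
  swap
  · push Not at h2
    exact D.caseD h2.1 (fun h => h2.2 h.1 h.2)
  by_cases h3 : (2 - D.xi) ^ 2 + D.eta ^ 2 ≠ 0 ∨ (2 - D.xi = 0 ∧ D.eta = 0)
  swap
  · push Not at h3
    have h4 := D.swap.caseD (by
      change (2 + -D.xi) ^ 2 + (-D.eta) ^ 2 = 0
      linear_combination h3.1) (fun h => h3.2 (by
        have h5 : 2 + -D.xi = 0 := h.1
        linear_combination h5) (by
        have h5 : -D.eta = 0 := h.2
        linear_combination -h5))
    exact ⟨h4.2, h4.1⟩
  exact alg (K := K)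
    { e1 := D.e1, e2 := D.e2, p := D.p, q := D.q, w := D.w, xi := D.xi, eta := D.eta, s1 := D.s1,
      s2 := D.s2, c := D.c, comm := D.comm, hc1 := D.hc1, hc2 := D.hc2, hc := D.hc, hw := D.hw,
      hrho := h1, cod1 := D.cod1, cod2 := D.cod2, cod3 := D.cod3, cod4 := D.cod4,
      gauss := D.gauss, ricci := D.ricci, tan1 := D.tan1, tan2 := D.tan2, nor1 := D.nor1,
      nor2 := D.nor2, re1 := h2, re2 := h3 }

end Pool.H60.PE
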