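import Mathlib

/-!
# Differential fields in which each element is a square, and surfaces over them
-/

namespace Pool.H60.PE

open Matrix

variable {K : Type} [Field K]

/-- A differential field with two commuting derivations in which each element is a square. -/
structure DC (K : Type) [Field K] where
  d : Fin 2 → Derivation ℤ K K
  comm : ∀ f : K, d 0 (d 1 f) = d 1 (d 0 f)
  root : ∀ a : K, ∃ b, a = b ^ 2

/-- derivative of a vector, componentwise -/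
def dv (D : Derivation ℤ K K) (v : Fin 4 → K) : Fin 4 → K := fun k => D (v k)

/-- the metric -/
def gm (D : DC K) (X : Fin 4 → K) (i j : Fin 2) : K := dv (D.d i) X ⬝ᵥ dv (D.d j) X

/-- determinant of the metric -/
def gdet (D : DC K) (X : Fin 4 → K) : K :=
  gm D X 0 0 * gm D X 1 1 - gm D X 0 1 ^ 2

/-- the inverse metric -/
def gi (D : DC K) (X : Fin 4 → K) (i j : Fin 2) : K :=
  !![gm D X 1 1, -gm D X 0 1; -gm D X 0 1, gm D X 0 0] i j / gdet D X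

/-- normal part -/
def norK (D : DC K) (X : Fin 4 → K) (v : Fin 4 → K) : Fin 4 → K :=
  v - ∑ i, ∑ j, (gi D X i j * (dv (D.d i) X ⬝ᵥ v)) • dv (D.d j) X

/-- the trace of the second fundamental form (twice the mean curvature vector) -/
def trK (D : DC K) (X : Fin 4 → K) : Fin 4 → K :=
  ∑ i, ∑ j, gi D X i j • norK D X (dv (D.d i) (dv (D.d j) X))

/-- Laplace operator; `del` is a square root of the determinant of the metric, up to a constant. -/
def lapK (D : DC K) (X : Fin 4 → K) (del : K) (f : K) : K :=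
  -(del⁻¹ * ∑ i, D.d i (∑ j, del * gi D X i j * D.d j f))

/-- A surface over a differential field with `Δ H = c H` and flat normal bundle.
`del` is a fourth root of the square of the determinant of the metric. -/
structure Imm (K : Type) [Field K] where
  D : DC K
  X : Fin 4 → K
  del : K
  c : K
  hdel : del ^ 4 = gdet D X ^ 2
  hne : del ≠ 0
  hc : c ≠ 0
  hdc : ∀ i, D.d i c = 0
  hlap : ∀ k, lapK D X del (trK D X k) = c * trK D X k
  flat : ∀ k : Fin 4,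
    norK D X (dv (D.d 0) (norK D X (dv (D.d 1) (norK D X (Pi.single k 1)))))
      = norK D X (dv (D.d 1) (norK D X (dv (D.d 0) (norK D X (Pi.single k 1)))))

/-- An orthonormal frame `E1 = Σ a i d_i`, `E2 = Σ b i d_i`. -/
structure OFr (D : DC K) (X : Fin 4 → K) where
  a : Fin 2 → K
  b : Fin 2 → K
  o11 : (∑ i, a i • dv (D.d i) X) ⬝ᵥ (∑ i, a i • dv (D.d i) X) = 1
  o12 : (∑ i, a i • dv (D.d i) X) ⬝ᵥ (∑ i, b i • dv (D.d i) X) = 0
  o22 : (∑ i, b i • dv (D.d i) X) ⬝ᵥ (∑ i, b i • dv (D.d i) X) = 1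

namespace OFr

variable {D : DC K} {X : Fin 4 → K}

/-- first frame derivation -/
def e1 (F : OFr D X) : Derivation ℤ K K := ∑ i, F.a i • D.d i

/-- second frame derivation -/
def e2 (F : OFr D X) : Derivation ℤ K K := ∑ i, F.b i • D.d i

/-- first frame vector -/
def u1 (F : OFr D X) : Fin 4 → K := dv F.e1 X

/-- second frame vector -/
def u2 (F : OFr D X) : Fin 4 → K := dv F.e2 X

/-- `p = <∇_{e1} e1, e2>` -/
def p (F : OFr D X) : K := dv F.e1 F.u1 ⬝ᵥ F.u2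

/-- `q = <∇_{e2} e2, e1>` -/
def q (F : OFr D X) : K := dv F.e2 F.u2 ⬝ᵥ F.u1

end OFr

/-- Principal frame. -/
structure PF (K : Type) [Field K] where
  e1 : Derivation ℤ K K
  e2 : Derivation ℤ K K
  p : K
  q : K
  c : K
  u1 : Fin 4 → K
  u2 : Fin 4 → K
  a1 : Fin 4 → K
  a2 : Fin 4 → K
  comm : ∀ f : K, e1 (e2 f) - e2 (e1 f) = -p * e1 f + q * e2 f
  root : ∀ a : K, ∃ b, a = b ^ 2
  hc1 : e1 c = 0
  hc2 : e2 c = 0
  hc : c ≠ 0
  o11 : u1 ⬝ᵥ u1 = 1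
  o12 : u1 ⬝ᵥ u2 = 0
  o22 : u2 ⬝ᵥ u2 = 1
  n11 : u1 ⬝ᵥ a1 = 0
  n12 : u1 ⬝ᵥ a2 = 0
  n21 : u2 ⬝ᵥ a1 = 0
  n22 : u2 ⬝ᵥ a2 = 0
  s11 : dv e1 u1 = p • u2 + a1
  s12 : dv e1 u2 = -p • u1
  s21 : dv e2 u1 = -q • u2
  s22 : dv e2 u2 = q • u1 + a2
  lap : dv e1 (dv e1 (a1 + a2)) + dv e2 (dv e2 (a1 + a2)) - p • dv e2 (a1 + a2)
      - q • dv e1 (a1 + a2) = -c • (a1 + a2)

/-- Null frame `f1`, `f2` (`<f1,f2> = 2`) in which `h(f2,f2) = 0`: the case without principal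
frame.  `m = h(f1,f2)` is the trace of `h`. -/
structure BF (K : Type) [Field K] where
  f1 : Derivation ℤ K K
  f2 : Derivation ℤ K K
  w1 : K
  w2 : K
  c : K
  v1 : Fin 4 → K
  v2 : Fin 4 → K
  m : Fin 4 → K
  nu : Fin 4 → K
  comm : ∀ g : K, f1 (f2 g) - f2 (f1 g) = -w1 * f2 g - w2 * f1 g
  o11 : v1 ⬝ᵥ v1 = 0
  o12 : v1 ⬝ᵥ v2 = 2
  o22 : v2 ⬝ᵥ v2 = 0
  n1 : v1 ⬝ᵥ m = 0
  n2 : v2 ⬝ᵥ m = 0
  k1 : v1 ⬝ᵥ nu = 0
  k2 : v2 ⬝ᵥ nu = 0
  s11 : dv f1 v1 = w1 • v1 + nu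
  s12 : dv f1 v2 = -w1 • v2 + m
  s21 : dv f2 v1 = w2 • v1 + m
  s22 : dv f2 v2 = -w2 • v2
  lap : dv f1 (dv f2 m) + dv f2 (dv f1 m) + w1 • dv f2 m - w2 • dv f1 m = -(2 * c) • m

end Pool.H60.PE
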