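import Pool.Agent.H99.N2.AField
import Pool.Agent.H60.PE.DC

/-!
# The quadratically closed differential field of an open set

`Pool.Agent.H99.N2.exists_bridge` gives a differential field `K`, a quotient of the ring of the
functions which are smooth on a dense open subset of `Om`, in which each element or its negative is
a square and sums of two squares are squares.  In `L = K(i)` each element is a square.
-/

namespace Pool.H60.PE

open scoped ContDiff
open Pool.Agent.H99.N2 (E2 E4 pd DF Bridge exists_bridge)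

/-- A differential field together with a map from the smooth functions on `Om`. -/
structure CBr (Om : Set E2) (L : Type) [Field L] where
  D : DC L
  I : L
  hI : I ^ 2 = -1
  φ : (E2 → ℝ) → L
  add : ∀ f g : E2 → ℝ, ContDiffOn ℝ ∞ f Om → ContDiffOn ℝ ∞ g Om →
    φ (fun x => f x + g x) = φ f + φ g
  mul : ∀ f g : E2 → ℝ, ContDiffOn ℝ ∞ f Om → ContDiffOn ℝ ∞ g Om →
    φ (fun x => f x * g x) = φ f * φ g
  one : φ (fun _ => 1) = 1
  der : ∀ (i : Fin 2) (f : E2 → ℝ), ContDiffOn ℝ ∞ f Om → φ (pd i f) = D.d i (φ f)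
  congr : ∀ f g : E2 → ℝ, ContDiffOn ℝ ∞ f Om → ContDiffOn ℝ ∞ g Om →
    (∀ x ∈ Om, f x = g x) → φ f = φ g
  ne : ∀ f : E2 → ℝ, ContDiffOn ℝ ∞ f Om → (∀ x ∈ Om, f x ≠ 0) → φ f ≠ 0

section field

variable {K : Type} [Field K]

/-- `K(i)` -/
abbrev Ki (K : Type) [Field K] : Type := QuadraticAlgebra K (-1) 0

/-- the extension of a derivation to `K(i)` -/
def kder (d : Derivation ℤ K K) : Derivation ℤ (Ki K) (Ki K) :=
  Derivation.mk' (AddMonoidHom.toIntLinearMap
    { toFun := fun z => ⟨d z.re, d z.im⟩
      map_zero' := by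
        apply QuadraticAlgebra.ext <;> simp
      map_add' := by
        intro z w
        apply QuadraticAlgebra.ext <;> simp })
    (by
      intro z w
      change (⟨d (z * w).re, d (z * w).im⟩ : Ki K) = z • (⟨d w.re, d w.im⟩ : Ki K)
        + w • (⟨d z.re, d z.im⟩ : Ki K)
      apply QuadraticAlgebra.ext
      · simp only [QuadraticAlgebra.re_mul, QuadraticAlgebra.re_add, smul_eq_mul, map_add,
          Derivation.leibniz, map_neg, Derivation.map_one_eq_zero]
        ring
      · simp only [QuadraticAlgebra.im_mul, QuadraticAlgebra.im_add, smul_eq_mul, map_add,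
          Derivation.leibniz, zero_mul, map_zero]
        ring)

theorem kder_re (d : Derivation ℤ K K) (z : Ki K) : (kder d z).re = d z.re := rfl

theorem kder_im (d : Derivation ℤ K K) (z : Ki K) : (kder d z).im = d z.im := rfl

theorem ki_fact (D : DF K) : Fact (∀ r : K, r ^ 2 ≠ -1 + 0 * r) := by
  constructor
  intro r h
  have h1 : (1 : K) ^ 2 + r ^ 2 = 0 := by rw [h]; ring
  exact one_ne_zero (D.real 1 r h1)

/-- In `K(i)` each element is a square. -/
theorem ki_root [CharZero K] (D : DF K) (z : Ki K) : ∃ w : Ki K, z = w ^ 2 := by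
  obtain ⟨a, b⟩ := z
  have h2 : (2 : K) ≠ 0 := two_ne_zero
  have mk : ∀ x y : K, x ^ 2 - y ^ 2 = a → 2 * x * y = b → ∃ w : Ki K, (⟨a, b⟩ : Ki K) = w ^ 2 := by
    intro x y h1 h3
    refine ⟨⟨x, y⟩, ?_⟩
    apply QuadraticAlgebra.ext
    · simp only [pow_two, QuadraticAlgebra.re_mul]
      linear_combination -h1
    · simp only [pow_two, QuadraticAlgebra.im_mul]
      linear_combination -h3
  by_cases hb : b = 0
  · obtain ⟨t, ht | ht⟩ := D.sq a
    · exact mk t 0 (by rw [ht]; ring) (by rw [hb]; ring)
    · exact mk 0 t (by rw [ht]; ring) (by rw [hb]; ring)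
  obtain ⟨r, hr⟩ := D.pyth a b
  have hrt : (r + a) * (r - a) = b ^ 2 := by linear_combination -hr
  -- one of `r + a`, `-r + a` halves is a square; both choices of the sign of `r` are possible
  have key : ∀ r : K, (r + a) * (r - a) = b ^ 2 → (∃ x, (r + a) / 2 = x ^ 2) →
      ∃ w : Ki K, (⟨a, b⟩ : Ki K) = w ^ 2 := by
    rintro r hr ⟨x, hx⟩
    have hx0 : x ≠ 0 := by
      rintro rfl
      have h3 : r + a = 0 := by linear_combination 2 * hx
      rw [h3, zero_mul] at hr
      exact hb ((pow_eq_zero_iff two_ne_zero).1 hr.symm)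
    have e : r + a = 2 * x ^ 2 := by linear_combination 2 * hx
    have e' : 2 * x ^ 2 * (r - a) = b ^ 2 := by rw [← e]; exact hr
    refine mk x (b / (2 * x)) ?_ (by field_simp)
    have e2 : (b / (2 * x)) ^ 2 = (r - a) / 2 := by
      rw [div_pow, div_eq_iff (pow_ne_zero 2 (mul_ne_zero h2 hx0))]
      linear_combination -e'
    rw [e2, ← hx]
    ring
  obtain ⟨x, hx | hx⟩ := D.sq ((r + a) / 2)
  · exact key r hrt ⟨x, hx⟩
  · -- `r + a = -2x^2`, then `r - a = -b^2 / (2 x^2)`; take `-r` instead of `r`
    have hx0 : x ≠ 0 := by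
      rintro rfl
      have h3 : r + a = 0 := by linear_combination 2 * hx
      rw [h3, zero_mul] at hrt
      exact hb ((pow_eq_zero_iff two_ne_zero).1 hrt.symm)
    have e : r + a = -(2 * x ^ 2) := by linear_combination 2 * hx
    have e' : -(2 * x ^ 2) * (r - a) = b ^ 2 := by rw [← e]; exact hrt
    refine key (-r) (by linear_combination hrt) ⟨b / (2 * x), ?_⟩
    rw [div_pow, eq_div_iff (pow_ne_zero 2 (mul_ne_zero h2 hx0))]
    linear_combination e'

/-- The differential field `K(i)`. -/
def kdc [CharZero K] (D : DF K) :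
    letI := ki_fact D
    DC (Ki K) :=
  letI := ki_fact D
  { d := fun i => kder (D.d i)
    comm := by
      intro f
      apply QuadraticAlgebra.ext
      · simp only [kder_re, D.comm]
      · simp only [kder_im, D.comm]
    root := ki_root D }

end field

theorem exists_cbr (Om : Set E2) (hO : IsOpen Om) (hne : Om.Nonempty) :
    ∃ (L : Type) (_ : Field L) (_ : CharZero L), Nonempty (CBr Om L) := by
  obtain ⟨K, hF, hC, ⟨B⟩⟩ := exists_bridge Om hO hne
  letI := ki_fact B.D
  refine ⟨Ki K, inferInstance, inferInstance, ⟨{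
    D := kdc B.D
    I := ⟨0, 1⟩
    hI := ?_
    φ := fun f => ⟨B.φ f, 0⟩
    add := ?_
    mul := ?_
    one := ?_
    der := ?_
    congr := ?_
    ne := ?_ }⟩⟩
  · apply QuadraticAlgebra.ext
    · simp [pow_two, QuadraticAlgebra.re_one]
    · simp [pow_two, QuadraticAlgebra.im_one]
  · intro f g hf hg
    apply QuadraticAlgebra.ext
    · simp only [QuadraticAlgebra.re_add]
      exact B.add f g hf hg
    · simp
  · intro f g hf hg
    apply QuadraticAlgebra.ext
    · simp only [QuadraticAlgebra.re_mul, mul_zero, add_zero]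
      exact B.mul f g hf hg
    · simp
  · apply QuadraticAlgebra.ext
    · exact B.one
    · rfl
  · intro i f hf
    apply QuadraticAlgebra.ext
    · exact B.der i f hf
    · change (0 : K) = B.D.d i 0
      rw [map_zero]
  · intro f g hf hg h
    apply QuadraticAlgebra.ext
    · exact B.congr f g hf hg h
    · rfl
  · intro f hf h h0
    exact B.ne f hf h (congrArg QuadraticAlgebra.re h0)

end Pool.H60.PE
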