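import Pool.Agent.H60.PE.CFrame

/-!
# Bracket of the frame and the Laplace operator in the frame

(Adapted from `Pool.Agent.H99.N2.GBra`; `del ^ 4 = gdet ^ 2` instead of `del ^ 2 = gdet`.)
-/

set_option linter.unusedSectionVars false

namespace Pool.H60.PE

open Matrix

variable {K : Type} [Field K] [CharZero K]

namespace OFr

variable {D : DC K} {X : Fin 4 → K}

private theorem e1_app (F : OFr D X) (f : K) :
    F.e1 f = F.a 0 * D.d 0 f + F.a 1 * D.d 1 f := by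
  simp [e1, Fin.sum_univ_two, Derivation.add_apply, Derivation.smul_apply]

private theorem e2_app (F : OFr D X) (f : K) :
    F.e2 f = F.b 0 * D.d 0 f + F.b 1 * D.d 1 f := by
  simp [e2, Fin.sum_univ_two, Derivation.add_apply, Derivation.smul_apply]

private theorem der_dot (E : Derivation ℤ K K) (v w : Fin 4 → K) :
    E (v ⬝ᵥ w) = dv E v ⬝ᵥ w + v ⬝ᵥ dv E w := by
  simp only [dotProduct, Fin.sum_univ_four, dv, map_add, Derivation.leibniz, smul_eq_mul]
  ring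

private theorem uu11 (F : OFr D X) : F.u1 ⬝ᵥ F.u1 = 1 := by rw [u1_eq]; exact F.o11
private theorem uu12 (F : OFr D X) : F.u1 ⬝ᵥ F.u2 = 0 := by rw [u1_eq, u2_eq]; exact F.o12
private theorem uu22 (F : OFr D X) : F.u2 ⬝ᵥ F.u2 = 1 := by rw [u2_eq]; exact F.o22

private theorem dzero {E : Derivation ℤ K K} {v w : Fin 4 → K} {c : K} (hc : E c = 0)
    (h : v ⬝ᵥ w = c) : dv E v ⬝ᵥ w + v ⬝ᵥ dv E w = 0 := by
  rw [← der_dot, h, hc]

private theorem delta_ne (F : OFr D X) : F.a 0 * F.b 1 - F.a 1 * F.b 0 ≠ 0 := by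
  intro h
  have h1 := F.det_sq
  rw [h] at h1
  simp at h1

private theorem second (F : OFr D X) (f : K) :
    F.e1 (F.e2 f) - F.e2 (F.e1 f)
      = (F.e1 (F.b 0) - F.e2 (F.a 0)) * D.d 0 f + (F.e1 (F.b 1) - F.e2 (F.a 1)) * D.d 1 f := by
  simp only [e1_app, e2_app, map_add, Derivation.leibniz, smul_eq_mul]
  have h := D.comm f
  linear_combination (F.a 0 * F.b 1 - F.a 1 * F.b 0) * h

theorem bra_a (F : OFr D X) (i : Fin 2) :
    F.e1 (F.b i) - F.e2 (F.a i) = -F.p * F.a i + F.q * F.b i := by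
  have h2 : (2 : K) ≠ 0 := two_ne_zero
  have hδ := F.delta_ne
  have p1 : dv F.e1 F.u2 ⬝ᵥ F.u1 = -F.p := by
    have h := dzero (E := F.e1) (by simp) F.uu12
    have h' : F.p = dv F.e1 F.u1 ⬝ᵥ F.u2 := rfl
    rw [dotProduct_comm F.u1] at h
    linear_combination h + h'
  have p2 : dv F.e2 F.u1 ⬝ᵥ F.u1 = 0 := by
    have h := dzero (E := F.e2) (by simp) F.uu11
    rw [dotProduct_comm F.u1] at h
    have : (2 : K) * (dv F.e2 F.u1 ⬝ᵥ F.u1) = 0 := by linear_combination h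
    exact (mul_eq_zero.1 this).resolve_left h2
  have p3 : dv F.e1 F.u2 ⬝ᵥ F.u2 = 0 := by
    have h := dzero (E := F.e1) (by simp) F.uu22
    rw [dotProduct_comm F.u2] at h
    have : (2 : K) * (dv F.e1 F.u2 ⬝ᵥ F.u2) = 0 := by linear_combination h
    exact (mul_eq_zero.1 this).resolve_left h2
  have p4 : dv F.e2 F.u1 ⬝ᵥ F.u2 = -F.q := by
    have h := dzero (E := F.e2) (by simp) F.uu12
    have h' : F.q = dv F.e2 F.u2 ⬝ᵥ F.u1 := rfl
    rw [dotProduct_comm F.u1] at h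
    linear_combination h + h'
  set B0 := F.e1 (F.b 0) - F.e2 (F.a 0) with hB0
  set B1 := F.e1 (F.b 1) - F.e2 (F.a 1) with hB1
  have hv : dv F.e1 F.u2 - dv F.e2 F.u1 = B0 • dv (D.d 0) X + B1 • dv (D.d 1) X := by
    funext k
    exact F.second (X k)
  have x0 : (F.a 0 * F.b 1 - F.a 1 * F.b 0) • dv (D.d 0) X = F.b 1 • F.u1 - F.a 1 • F.u2 := by
    rw [u1_eq, u2_eq]
    funext k
    simp only [Fin.sum_univ_two, Pi.smul_apply, Pi.add_apply, Pi.sub_apply, smul_eq_mul]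
    ring
  have x1 : (F.a 0 * F.b 1 - F.a 1 * F.b 0) • dv (D.d 1) X = -F.b 0 • F.u1 + F.a 0 • F.u2 := by
    rw [u1_eq, u2_eq]
    funext k
    simp only [Fin.sum_univ_two, Pi.smul_apply, Pi.add_apply, smul_eq_mul]
    ring
  have y1 : (F.a 0 * F.b 1 - F.a 1 * F.b 0) * (dv (D.d 0) X ⬝ᵥ F.u1) = F.b 1 := by
    rw [← smul_eq_mul, ← smul_dotProduct, x0, sub_dotProduct, smul_dotProduct, smul_dotProduct,
      F.uu11, dotProduct_comm F.u2, F.uu12]
    simp
  have y2 : (F.a 0 * F.b 1 - F.a 1 * F.b 0) * (dv (D.d 0) X ⬝ᵥ F.u2) = -F.a 1 := by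
    rw [← smul_eq_mul, ← smul_dotProduct, x0, sub_dotProduct, smul_dotProduct, smul_dotProduct,
      F.uu22, F.uu12]
    simp
  have y3 : (F.a 0 * F.b 1 - F.a 1 * F.b 0) * (dv (D.d 1) X ⬝ᵥ F.u1) = -F.b 0 := by
    rw [← smul_eq_mul, ← smul_dotProduct, x1, add_dotProduct, smul_dotProduct, smul_dotProduct,
      F.uu11, dotProduct_comm F.u2, F.uu12]
    simp
  have y4 : (F.a 0 * F.b 1 - F.a 1 * F.b 0) * (dv (D.d 1) X ⬝ᵥ F.u2) = F.a 0 := by
    rw [← smul_eq_mul, ← smul_dotProduct, x1, add_dotProduct, smul_dotProduct, smul_dotProduct,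
      F.uu22, F.uu12]
    simp
  have z1 : -F.p = B0 * (dv (D.d 0) X ⬝ᵥ F.u1) + B1 * (dv (D.d 1) X ⬝ᵥ F.u1) := by
    have := congrArg (fun v => v ⬝ᵥ F.u1) hv
    simp only [sub_dotProduct, add_dotProduct, smul_dotProduct, smul_eq_mul] at this
    rw [p1, p2, sub_zero] at this
    exact this
  have z2 : F.q = B0 * (dv (D.d 0) X ⬝ᵥ F.u2) + B1 * (dv (D.d 1) X ⬝ᵥ F.u2) := by
    have := congrArg (fun v => v ⬝ᵥ F.u2) hv
    simp only [sub_dotProduct, add_dotProduct, smul_dotProduct, smul_eq_mul] at this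
    rw [p3, p4, zero_sub, neg_neg] at this
    exact this
  have w1 : (F.a 0 * F.b 1 - F.a 1 * F.b 0) * (-F.p) = B0 * F.b 1 - B1 * F.b 0 := by
    rw [z1]; linear_combination B0 * y1 + B1 * y3
  have w2 : (F.a 0 * F.b 1 - F.a 1 * F.b 0) * F.q = -B0 * F.a 1 + B1 * F.a 0 := by
    rw [z2]; linear_combination B0 * y2 + B1 * y4
  fin_cases i
  · change B0 = -F.p * F.a 0 + F.q * F.b 0
    apply mul_left_cancel₀ hδ
    linear_combination -F.a 0 * w1 - F.b 0 * w2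
  · change B1 = -F.p * F.a 1 + F.q * F.b 1
    apply mul_left_cancel₀ hδ
    linear_combination -F.a 1 * w1 - F.b 1 * w2

theorem comm (F : OFr D X) (f : K) :
    F.e1 (F.e2 f) - F.e2 (F.e1 f) = -F.p * F.e1 f + F.q * F.e2 f := by
  rw [F.second f, F.bra_a 0, F.bra_a 1, e1_app, e2_app]
  ring

theorem lap_eq (F : OFr D X) (del : K) (hdel : del ^ 4 = gdet D X ^ 2) (f : K) :
    lapK D X del f = -(F.e1 (F.e1 f) + F.e2 (F.e2 f) - F.p * F.e2 f - F.q * F.e1 f) := by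
  have h2 : (2 : K) ≠ 0 := two_ne_zero
  have hδ := F.delta_ne
  have hds := F.det_sq
  set δ := F.a 0 * F.b 1 - F.a 1 * F.b 0 with hδdef
  have hdel0 : del ≠ 0 := by
    intro h
    rw [h] at hdel
    have h3 : gdet D X = 0 := by
      have h4 : gdet D X ^ 2 = 0 := by rw [← hdel]; ring
      exact pow_eq_zero_iff two_ne_zero |>.1 h4
    rw [h3] at hds
    simp at hds
  have hsq : (δ * del) * ((δ * del) * ((δ * del) * (δ * del))) = 1 := by
    linear_combination δ ^ 4 * hdel + (δ ^ 2 * gdet D X + 1) * hds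
  have hdd : ∀ i, D.d i del * δ = -del * D.d i δ := by
    intro i
    have h := congrArg (D.d i) hsq
    simp only [Derivation.leibniz, smul_eq_mul, Derivation.map_one_eq_zero] at h
    have h3 : (2 : K) * 2 * (δ * del) ^ 3 * (δ * D.d i del + del * D.d i δ) = 0 := by
      linear_combination h
    have h4 : (2 : K) * 2 * (δ * del) ^ 3 ≠ 0 :=
      mul_ne_zero (mul_ne_zero h2 h2) (pow_ne_zero 3 (mul_ne_zero hδ hdel0))
    have h5 := (mul_eq_zero.1 h3).resolve_left h4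
    linear_combination h5
  have hin : ∀ i, (∑ j, del * gi D X i j * D.d j f) = del * (F.a i * F.e1 f + F.b i * F.e2 f) := by
    intro i
    rw [Fin.sum_univ_two, F.gi_eq, F.gi_eq, e1_app, e2_app]
    ring
  have hb0 := F.bra_a 0
  have hb1 := F.bra_a 1
  have hδ0 : ∀ i, D.d i δ = F.b 1 * D.d i (F.a 0) + F.a 0 * D.d i (F.b 1)
      - F.b 0 * D.d i (F.a 1) - F.a 1 * D.d i (F.b 0) := by
    intro i
    rw [hδdef]
    simp only [map_sub, Derivation.leibniz, smul_eq_mul]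
    ring
  have hdiv1 : F.a 0 * D.d 0 δ + F.a 1 * D.d 1 δ
      = δ * (D.d 0 (F.a 0) + D.d 1 (F.a 1)) + F.q * δ := by
    rw [e1_app, e2_app] at hb0 hb1
    rw [hδ0, hδ0]
    linear_combination (exp := 1) F.a 0 * hb1 - F.a 1 * hb0
  have hdiv2 : F.b 0 * D.d 0 δ + F.b 1 * D.d 1 δ
      = δ * (D.d 0 (F.b 0) + D.d 1 (F.b 1)) + F.p * δ := by
    rw [e1_app, e2_app] at hb0 hb1
    rw [hδ0, hδ0]
    linear_combination (exp := 1) F.b 0 * hb1 - F.b 1 * hb0
  have hd0 := hdd 0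
  have hd1 := hdd 1
  rw [lapK, neg_inj, Fin.sum_univ_two, hin, hin, inv_mul_eq_iff_eq_mul₀ hdel0]
  simp only [Derivation.leibniz, smul_eq_mul, map_add]
  rw [e1_app F (F.e1 f), e2_app F (F.e2 f)]
  apply mul_left_cancel₀ hδ
  linear_combination (F.a 0 * F.e1 f + F.b 0 * F.e2 f) * hd0
    + (F.a 1 * F.e1 f + F.b 1 * F.e2 f) * hd1 - del * F.e1 f * hdiv1 - del * F.e2 f * hdiv2

end OFr

end Pool.H60.PE
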