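import Pool.Agent.H60.PE.DC

/-!
# Existence of an orthonormal frame, basic formulas in a frame

The metric may have isotropic vectors, but each element of the field is a square.
(Adapted from `Pool.Agent.H99.N2.GFrame`.)
-/

namespace Pool.H60.PE

open Matrix

variable {K : Type} [Field K]

private theorem gm_symm (D : DC K) (X : Fin 4 → K) (i j : Fin 2) : gm D X i j = gm D X j i := by
  unfold gm
  exact dotProduct_comm _ _

/-- A nondegenerate symmetric matrix can be brought to the unit matrix. -/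
theorem cframe_mat [CharZero K] (D : DC K) (g00 g01 g11 : K) (h : g00 * g11 - g01 ^ 2 ≠ 0) :
    ∃ a0 a1 b0 b1 : K,
      a0 * a0 * g00 + (a0 * a1 + a1 * a0) * g01 + a1 * a1 * g11 = 1 ∧
      a0 * b0 * g00 + (a0 * b1 + a1 * b0) * g01 + a1 * b1 * g11 = 0 ∧
      b0 * b0 * g00 + (b0 * b1 + b1 * b0) * g01 + b1 * b1 * g11 = 1 := by
  have key : ∀ x y z : K, x * z - y ^ 2 ≠ 0 → x ≠ 0 → ∃ a0 b0 b1 : K,
      a0 * a0 * x = 1 ∧ a0 * b0 * x + a0 * b1 * y = 0 ∧
      b0 * b0 * x + (b0 * b1 + b1 * b0) * y + b1 * b1 * z = 1 := by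
    intro x y z hxyz hx
    obtain ⟨r, hr⟩ := D.root x
    have hr0 : r ≠ 0 := by
      rintro rfl
      exact hx (by rw [hr]; ring)
    obtain ⟨t, ht⟩ := D.root ((x * z - y ^ 2) / x)
    have ht0 : t ≠ 0 := by
      rintro rfl
      have h1 : (x * z - y ^ 2) / x = 0 := by rw [ht]; ring
      rcases div_eq_zero_iff.1 h1 with h2 | h2
      · exact hxyz h2
      · exact hx h2
    have ht' : x * z - y ^ 2 = x * t ^ 2 := by
      rw [← ht]
      field_simp
    refine ⟨r⁻¹, -(y / x) * t⁻¹, t⁻¹, ?_, ?_, ?_⟩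
    · rw [hr]
      field_simp
    · field_simp
      ring
    · field_simp
      linear_combination ht'
  by_cases h00 : g00 = 0
  · by_cases h11 : g11 = 0
    · have h01 : g01 ≠ 0 := by
        rintro rfl
        apply h
        rw [h00, h11]
        ring
      obtain ⟨i, hi⟩ := D.root (-1)
      have h2 : (2 : K) ≠ 0 := two_ne_zero
      refine ⟨1, (2 * g01)⁻¹, i, -(i * (2 * g01)⁻¹), ?_, ?_, ?_⟩
      · rw [h00, h11]
        field_simp
        ring
      · rw [h00, h11]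
        ring
      · rw [h00, h11]
        have e : (2 * g01)⁻¹ * (2 * g01) = 1 := inv_mul_cancel₀ (mul_ne_zero h2 h01)
        linear_combination hi - (i ^ 2) * e + hi - hi
    · obtain ⟨a0, b0, b1, e1, e2, e3⟩ := key g11 g01 g00 (by
        intro h3
        apply h
        linear_combination h3) h11
      exact ⟨0, a0, b1, b0, by linear_combination e1, by linear_combination e2,
        by linear_combination e3⟩
  · obtain ⟨a0, b0, b1, e1, e2, e3⟩ := key g00 g01 g11 h h00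
    exact ⟨a0, 0, b0, b1, by linear_combination e1, by linear_combination e2,
      by linear_combination e3⟩

theorem exists_ofr [CharZero K] (D : DC K) (X : Fin 4 → K) (h : gdet D X ≠ 0) :
    Nonempty (OFr D X) := by
  obtain ⟨a0, a1, b0, b1, h1, h2, h3⟩ := cframe_mat D _ _ _ h
  have e : ∀ x0 x1 y0 y1 : K,
      (∑ i, (![x0, x1] : Fin 2 → K) i • dv (D.d i) X) ⬝ᵥ
        (∑ i, (![y0, y1] : Fin 2 → K) i • dv (D.d i) X)
      = x0 * y0 * gm D X 0 0 + (x0 * y1 + x1 * y0) * gm D X 0 1 + x1 * y1 * gm D X 1 1 := by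
    intro x0 x1 y0 y1
    simp only [Fin.sum_univ_two, Matrix.cons_val_zero, Matrix.cons_val_one,
      add_dotProduct, dotProduct_add, smul_dotProduct, dotProduct_smul, smul_eq_mul]
    have e : dv (D.d 1) X ⬝ᵥ dv (D.d 0) X = dv (D.d 0) X ⬝ᵥ dv (D.d 1) X := dotProduct_comm _ _
    rw [e]
    unfold gm
    ring
  exact ⟨⟨![a0, a1], ![b0, b1], by rw [e]; exact h1, by rw [e]; exact h2, by rw [e]; exact h3⟩⟩

namespace OFr

variable {D : DC K} {X : Fin 4 → K}

private theorem e1_apply (F : OFr D X) (f : K) : F.e1 f = F.a 0 * D.d 0 f + F.a 1 * D.d 1 f := by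
  simp only [e1, Fin.sum_univ_two, Derivation.add_apply, Derivation.smul_apply, smul_eq_mul]

private theorem e2_apply (F : OFr D X) (f : K) : F.e2 f = F.b 0 * D.d 0 f + F.b 1 * D.d 1 f := by
  simp only [e2, Fin.sum_univ_two, Derivation.add_apply, Derivation.smul_apply, smul_eq_mul]

theorem u1_eq (F : OFr D X) : F.u1 = ∑ i, F.a i • dv (D.d i) X := by
  funext k
  simp only [u1, dv, e1_apply, Fin.sum_univ_two, Pi.add_apply, Pi.smul_apply, smul_eq_mul]

theorem u2_eq (F : OFr D X) : F.u2 = ∑ i, F.b i • dv (D.d i) X := by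
  funext k
  simp only [u2, dv, e2_apply, Fin.sum_univ_two, Pi.add_apply, Pi.smul_apply, smul_eq_mul]

private theorem p11 (F : OFr D X) : F.a 0 ^ 2 * gm D X 0 0 + 2 * F.a 0 * F.a 1 * gm D X 0 1
    + F.a 1 ^ 2 * gm D X 1 1 = 1 := by
  have h := F.o11
  simp only [Fin.sum_univ_two, add_dotProduct, dotProduct_add, smul_dotProduct, dotProduct_smul,
    smul_eq_mul] at h
  have e : dv (D.d 1) X ⬝ᵥ dv (D.d 0) X = dv (D.d 0) X ⬝ᵥ dv (D.d 1) X := dotProduct_comm _ _
  rw [e] at h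
  unfold gm
  linear_combination h

private theorem p12 (F : OFr D X) : F.a 0 * F.b 0 * gm D X 0 0
    + (F.a 0 * F.b 1 + F.a 1 * F.b 0) * gm D X 0 1 + F.a 1 * F.b 1 * gm D X 1 1 = 0 := by
  have h := F.o12
  simp only [Fin.sum_univ_two, add_dotProduct, dotProduct_add, smul_dotProduct, dotProduct_smul,
    smul_eq_mul] at h
  have e : dv (D.d 1) X ⬝ᵥ dv (D.d 0) X = dv (D.d 0) X ⬝ᵥ dv (D.d 1) X := dotProduct_comm _ _
  rw [e] at h
  unfold gm
  linear_combination h

private theorem p22 (F : OFr D X) : F.b 0 ^ 2 * gm D X 0 0 + 2 * F.b 0 * F.b 1 * gm D X 0 1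
    + F.b 1 ^ 2 * gm D X 1 1 = 1 := by
  have h := F.o22
  simp only [Fin.sum_univ_two, add_dotProduct, dotProduct_add, smul_dotProduct, dotProduct_smul,
    smul_eq_mul] at h
  have e : dv (D.d 1) X ⬝ᵥ dv (D.d 0) X = dv (D.d 0) X ⬝ᵥ dv (D.d 1) X := dotProduct_comm _ _
  rw [e] at h
  unfold gm
  linear_combination h

theorem det_sq (F : OFr D X) : (F.a 0 * F.b 1 - F.a 1 * F.b 0) ^ 2 * gdet D X = 1 := by
  have h1 := p11 F
  have h2 := p12 F
  have h3 := p22 F
  unfold gdet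
  linear_combination (F.b 0 ^ 2 * gm D X 0 0 + 2 * F.b 0 * F.b 1 * gm D X 0 1
    + F.b 1 ^ 2 * gm D X 1 1) * h1 + h3 - (F.a 0 * F.b 0 * gm D X 0 0
    + (F.a 0 * F.b 1 + F.a 1 * F.b 0) * gm D X 0 1 + F.a 1 * F.b 1 * gm D X 1 1) * h2

private theorem gdet_ne (F : OFr D X) : gdet D X ≠ 0 := by
  intro h
  have := F.det_sq
  rw [h, mul_zero] at this
  exact zero_ne_one this

theorem gi_eq (F : OFr D X) (i j : Fin 2) : gi D X i j = F.a i * F.a j + F.b i * F.b j := by
  have h1 := p11 F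
  have h2 := p12 F
  have h3 := p22 F
  have h4 := F.det_sq
  have h5 := F.gdet_ne
  unfold gi
  rw [div_eq_iff h5]
  have key11 : gm D X 1 1 = (F.a 0 * F.a 0 + F.b 0 * F.b 0) * gdet D X := by
    linear_combination gdet D X * (F.b 0 ^ 2 * h1 - 2 * F.a 0 * F.b 0 * h2 + F.a 0 ^ 2 * h3)
      - gm D X 1 1 * h4
  have key00 : gm D X 0 0 = (F.a 1 * F.a 1 + F.b 1 * F.b 1) * gdet D X := by
    linear_combination gdet D X * (F.b 1 ^ 2 * h1 - 2 * F.a 1 * F.b 1 * h2 + F.a 1 ^ 2 * h3)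
      - gm D X 0 0 * h4
  have key01 : -gm D X 0 1 = (F.a 0 * F.a 1 + F.b 0 * F.b 1) * gdet D X := by
    linear_combination gdet D X * (F.b 0 * F.b 1 * h1 - (F.a 0 * F.b 1 + F.a 1 * F.b 0) * h2
      + F.a 0 * F.a 1 * h3) + gm D X 0 1 * h4
  fin_cases i <;> fin_cases j
  · exact key11
  · exact key01
  · refine Eq.trans key01 ?_
    simp only [Fin.mk_one, Fin.zero_eta]
    ring
  · exact key00

theorem nor_eq (F : OFr D X) (v : Fin 4 → K) :
    norK D X v = v - (F.u1 ⬝ᵥ v) • F.u1 - (F.u2 ⬝ᵥ v) • F.u2 := by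
  rw [u1_eq, u2_eq]
  unfold norK
  simp only [gi_eq F]
  funext k
  simp only [Fin.sum_univ_two, add_dotProduct, smul_dotProduct, smul_eq_mul, Pi.sub_apply,
    Pi.add_apply, Pi.smul_apply]
  ring

private theorem norK_add (v w : Fin 4 → K) : norK D X (v + w) = norK D X v + norK D X w := by
  unfold norK
  funext k
  simp only [Fin.sum_univ_two, dotProduct_add, smul_eq_mul, Pi.sub_apply,
    Pi.add_apply, Pi.smul_apply]
  ring

private theorem norK_smul (c : K) (v : Fin 4 → K) : norK D X (c • v) = c • norK D X v := by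
  unfold norK
  funext k
  simp only [Fin.sum_univ_two, dotProduct_smul, smul_eq_mul, Pi.sub_apply,
    Pi.add_apply, Pi.smul_apply]
  ring

private theorem norK_x (F : OFr D X) (j : Fin 2) : norK D X (dv (D.d j) X) = 0 := by
  have h5 := F.gdet_ne
  funext k
  simp only [norK, Fin.sum_univ_two, smul_eq_mul, Pi.sub_apply, Pi.add_apply, Pi.smul_apply,
    Pi.zero_apply]
  have e00 : gi D X 0 0 = gm D X 1 1 / gdet D X := rfl
  have e01 : gi D X 0 1 = -gm D X 0 1 / gdet D X := rfl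
  have e10 : gi D X 1 0 = -gm D X 0 1 / gdet D X := rfl
  have e11 : gi D X 1 1 = gm D X 0 0 / gdet D X := rfl
  have f : ∀ i j : Fin 2, dv (D.d i) X ⬝ᵥ dv (D.d j) X = gm D X i j := fun _ _ => rfl
  have hG : gdet D X = gm D X 0 0 * gm D X 1 1 - gm D X 0 1 ^ 2 := rfl
  rw [e00, e01, e10, e11, f, f]
  have hs : gm D X 1 0 = gm D X 0 1 := gm_symm D X 1 0
  fin_cases j
  · simp only [Fin.zero_eta]
    rw [hs]
    field_simp
    rw [hG]
    ring
  · simp only [Fin.mk_one]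
    field_simp
    rw [hG]
    ring

private theorem e1_u1 (F : OFr D X) : dv F.e1 F.u1
    = (F.a 0 * D.d 0 (F.a 0) + F.a 1 * D.d 1 (F.a 0)) • dv (D.d 0) X
      + (F.a 0 * D.d 0 (F.a 1) + F.a 1 * D.d 1 (F.a 1)) • dv (D.d 1) X
      + ((F.a 0 * F.a 0) • dv (D.d 0) (dv (D.d 0) X)
      + ((F.a 0 * F.a 1) • dv (D.d 0) (dv (D.d 1) X)
      + ((F.a 1 * F.a 0) • dv (D.d 1) (dv (D.d 0) X)
      + (F.a 1 * F.a 1) • dv (D.d 1) (dv (D.d 1) X)))) := by
  rw [u1_eq]
  funext k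
  simp only [dv, e1_apply, Fin.sum_univ_two, Pi.add_apply, Pi.smul_apply, smul_eq_mul, map_add,
    Derivation.leibniz]
  ring

private theorem e2_u2 (F : OFr D X) : dv F.e2 F.u2
    = (F.b 0 * D.d 0 (F.b 0) + F.b 1 * D.d 1 (F.b 0)) • dv (D.d 0) X
      + (F.b 0 * D.d 0 (F.b 1) + F.b 1 * D.d 1 (F.b 1)) • dv (D.d 1) X
      + ((F.b 0 * F.b 0) • dv (D.d 0) (dv (D.d 0) X)
      + ((F.b 0 * F.b 1) • dv (D.d 0) (dv (D.d 1) X)
      + ((F.b 1 * F.b 0) • dv (D.d 1) (dv (D.d 0) X)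
      + (F.b 1 * F.b 1) • dv (D.d 1) (dv (D.d 1) X)))) := by
  rw [u2_eq]
  funext k
  simp only [dv, e2_apply, Fin.sum_univ_two, Pi.add_apply, Pi.smul_apply, smul_eq_mul, map_add,
    Derivation.leibniz]
  ring

theorem tr_eq (F : OFr D X) :
    trK D X = norK D X (dv F.e1 F.u1) + norK D X (dv F.e2 F.u2) := by
  rw [e1_u1, e2_u2]
  simp only [norK_add, norK_smul, norK_x F, smul_zero, zero_add]
  unfold trK
  simp only [gi_eq F]
  funext k
  simp only [Fin.sum_univ_two, Pi.add_apply, Pi.smul_apply, smul_eq_mul]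
  ring

end OFr

end Pool.H60.PE
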