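import Pool.Agent.H60.PE.CAlg

/-!
# The structure equations in a principal frame

(Adapted from `Pool.Agent.H99.N2.GNf`.)
-/

namespace Pool.H60.PE

open Matrix

variable {K : Type} [Field K]

namespace GNfAux

theorem dv_add (D : Derivation ℤ K K) (v w : Fin 4 → K) : dv D (v + w) = dv D v + dv D w := by
  funext k
  simp [dv]

theorem dv_smul (D : Derivation ℤ K K) (f : K) (v : Fin 4 → K) :
    dv D (f • v) = D f • v + f • dv D v := by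
  funext k
  simp [dv, Derivation.leibniz]
  ring

theorem dv_neg (D : Derivation ℤ K K) (v : Fin 4 → K) : dv D (-v) = -dv D v := by
  funext k
  simp [dv]

theorem d_dot (D : Derivation ℤ K K) (v w : Fin 4 → K) :
    D (v ⬝ᵥ w) = dv D v ⬝ᵥ w + v ⬝ᵥ dv D w := by
  simp only [dotProduct, Fin.sum_univ_four, dv, map_add, Derivation.leibniz, smul_eq_mul]
  ring

/-- the triple cross product in dimension 4 -/
def cross (a b c : Fin 4 → K) : Fin 4 → K :=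
  ![a 1 * (b 2 * c 3 - b 3 * c 2) - a 2 * (b 1 * c 3 - b 3 * c 1) + a 3 * (b 1 * c 2 - b 2 * c 1),
    -(a 0 * (b 2 * c 3 - b 3 * c 2) - a 2 * (b 0 * c 3 - b 3 * c 0)
      + a 3 * (b 0 * c 2 - b 2 * c 0)),
    a 0 * (b 1 * c 3 - b 3 * c 1) - a 1 * (b 0 * c 3 - b 3 * c 0) + a 3 * (b 0 * c 1 - b 1 * c 0),
    -(a 0 * (b 1 * c 2 - b 2 * c 1) - a 1 * (b 0 * c 2 - b 2 * c 0)
      + a 2 * (b 0 * c 1 - b 1 * c 0))]

theorem cross_left (a b c : Fin 4 → K) : a ⬝ᵥ cross a b c = 0 := by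
  simp [dotProduct, Fin.sum_univ_four, cross]
  ring

theorem cross_mid (a b c : Fin 4 → K) : b ⬝ᵥ cross a b c = 0 := by
  simp [dotProduct, Fin.sum_univ_four, cross]
  ring

theorem cross_right (a b c : Fin 4 → K) : c ⬝ᵥ cross a b c = 0 := by
  simp [dotProduct, Fin.sum_univ_four, cross]
  ring

theorem cross_self (a b c : Fin 4 → K) : cross a b c ⬝ᵥ cross a b c =
    (a ⬝ᵥ a) * (b ⬝ᵥ b) * (c ⬝ᵥ c) + 2 * (a ⬝ᵥ b) * (b ⬝ᵥ c) * (a ⬝ᵥ c)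
      - (a ⬝ᵥ a) * (b ⬝ᵥ c) ^ 2 - (b ⬝ᵥ b) * (a ⬝ᵥ c) ^ 2 - (c ⬝ᵥ c) * (a ⬝ᵥ b) ^ 2 := by
  simp [dotProduct, Fin.sum_univ_four, cross]
  ring

theorem complete {a b c d : Fin 4 → K} (haa : a ⬝ᵥ a = 1) (hab : a ⬝ᵥ b = 0) (hac : a ⬝ᵥ c = 0)
    (had : a ⬝ᵥ d = 0) (hbb : b ⬝ᵥ b = 1) (hbc : b ⬝ᵥ c = 0) (hbd : b ⬝ᵥ d = 0)
    (hcc : c ⬝ᵥ c = 1) (hcd : c ⬝ᵥ d = 0) (hdd : d ⬝ᵥ d = 1) (v : Fin 4 → K) :
    v = (a ⬝ᵥ v) • a + (b ⬝ᵥ v) • b + (c ⬝ᵥ v) • c + (d ⬝ᵥ v) • d := by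
  have h1 : (Matrix.of ![a, b, c, d]) * (Matrix.of ![a, b, c, d])ᵀ = 1 := by
    ext i j
    have e : ((Matrix.of ![a, b, c, d]) * (Matrix.of ![a, b, c, d])ᵀ) i j
        = (![a, b, c, d] i) ⬝ᵥ (![a, b, c, d] j) := by
      rw [Matrix.mul_apply]
      rfl
    rw [e]
    fin_cases i <;> fin_cases j <;>
      simp [haa, hab, hac, had, hbb, hbc, hbd, hcc, hcd, hdd, dotProduct_comm b a,
        dotProduct_comm c a, dotProduct_comm d a, dotProduct_comm c b, dotProduct_comm d b,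
        dotProduct_comm d c]
  have h2 : (Matrix.of ![a, b, c, d])ᵀ * (Matrix.of ![a, b, c, d]) = 1 :=
    mul_eq_one_comm.mp h1
  have h3 : ((Matrix.of ![a, b, c, d])ᵀ).mulVec ((Matrix.of ![a, b, c, d]).mulVec v) = v := by
    rw [Matrix.mulVec_mulVec, h2, Matrix.one_mulVec]
  have h4 : (Matrix.of ![a, b, c, d]).mulVec v = ![a ⬝ᵥ v, b ⬝ᵥ v, c ⬝ᵥ v, d ⬝ᵥ v] := by
    funext i
    fin_cases i <;> rfl
  rw [h4] at h3
  conv_lhs => rw [← h3]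
  funext k
  simp [Matrix.mulVec, dotProduct, Fin.sum_univ_four]
  ring

end GNfAux

open GNfAux

theorem exists_nf [CharZero K] (P : PF K) (h : (P.a1 + P.a2) ⬝ᵥ (P.a1 + P.a2) ≠ 0) :
    ∃ D : NG K, D.e1 = P.e1 ∧ D.e2 = P.e2 ∧ D.w ^ 2 = (P.a1 + P.a2) ⬝ᵥ (P.a1 + P.a2) := by
  classical
  -- `w`
  obtain ⟨w, hw2⟩ : ∃ w : K, (P.a1 + P.a2) ⬝ᵥ (P.a1 + P.a2) = w ^ 2 := by
    set N := P.a1 + P.a2
    exact P.root (N ⬝ᵥ N)
  have hw : w ≠ 0 := by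
    rintro rfl
    apply h
    rw [hw2]
    ring
  have h2 : (2 : K) ≠ 0 := by norm_num
  set N : Fin 4 → K := P.a1 + P.a2 with hN
  obtain ⟨n1, hn1⟩ : ∃ n1 : Fin 4 → K, N = w • n1 := by
    refine ⟨w⁻¹ • N, ?_⟩
    rw [smul_smul, mul_inv_cancel₀ hw, one_smul]
  have m11 : n1 ⬝ᵥ n1 = 1 := by
    rw [hn1, smul_dotProduct, dotProduct_smul, smul_eq_mul, smul_eq_mul] at hw2
    have : w ^ 2 * (n1 ⬝ᵥ n1 - 1) = 0 := by linear_combination hw2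
    have h3 := (mul_eq_zero.mp this).resolve_left (pow_ne_zero 2 hw)
    linear_combination h3
  have u1n1 : P.u1 ⬝ᵥ n1 = 0 := by
    have h3 : P.u1 ⬝ᵥ N = 0 := by rw [hN, dotProduct_add, P.n11, P.n12, add_zero]
    rw [hn1, dotProduct_smul, smul_eq_mul] at h3
    exact (mul_eq_zero.mp h3).resolve_left hw
  have u2n1 : P.u2 ⬝ᵥ n1 = 0 := by
    have h3 : P.u2 ⬝ᵥ N = 0 := by rw [hN, dotProduct_add, P.n21, P.n22, add_zero]
    rw [hn1, dotProduct_smul, smul_eq_mul] at h3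
    exact (mul_eq_zero.mp h3).resolve_left hw
  -- `n2`
  obtain ⟨n2, u1n2, u2n2, m12, m22⟩ : ∃ n2 : Fin 4 → K, P.u1 ⬝ᵥ n2 = 0 ∧ P.u2 ⬝ᵥ n2 = 0 ∧
      n1 ⬝ᵥ n2 = 0 ∧ n2 ⬝ᵥ n2 = 1 := by
    refine ⟨cross P.u1 P.u2 n1, cross_left _ _ _, cross_mid _ _ _, cross_right _ _ _, ?_⟩
    rw [GNfAux.cross_self, P.o11, P.o12, P.o22, u1n1, u2n1, m11]
    ring
  have cpl : ∀ v : Fin 4 → K, v = (P.u1 ⬝ᵥ v) • P.u1 + (P.u2 ⬝ᵥ v) • P.u2 + (n1 ⬝ᵥ v) • n1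
      + (n2 ⬝ᵥ v) • n2 :=
    complete P.o11 P.o12 u1n1 u1n2 P.o22 u2n1 u2n2 m11 m12 m22
  have u2u1 : P.u2 ⬝ᵥ P.u1 = 0 := by rw [dotProduct_comm]; exact P.o12
  have n1u1 : n1 ⬝ᵥ P.u1 = 0 := by rw [dotProduct_comm]; exact u1n1
  have n1u2 : n1 ⬝ᵥ P.u2 = 0 := by rw [dotProduct_comm]; exact u2n1
  have n2u1 : n2 ⬝ᵥ P.u1 = 0 := by rw [dotProduct_comm]; exact u1n2
  have n2u2 : n2 ⬝ᵥ P.u2 = 0 := by rw [dotProduct_comm]; exact u2n2
  have m21 : n2 ⬝ᵥ n1 = 0 := by rw [dotProduct_comm]; exact m12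
  -- components of a1, a2
  obtain ⟨A1, hA1⟩ : ∃ A1, n1 ⬝ᵥ P.a1 = A1 := ⟨_, rfl⟩
  obtain ⟨B1, hB1⟩ : ∃ B1, n2 ⬝ᵥ P.a1 = B1 := ⟨_, rfl⟩
  obtain ⟨A2, hA2⟩ : ∃ A2, n1 ⬝ᵥ P.a2 = A2 := ⟨_, rfl⟩
  obtain ⟨B2, hB2⟩ : ∃ B2, n2 ⬝ᵥ P.a2 = B2 := ⟨_, rfl⟩
  have ha1 : P.a1 = A1 • n1 + B1 • n2 := by
    have := cpl P.a1
    rw [P.n11, P.n21, hA1, hB1, zero_smul, zero_smul, zero_add, zero_add] at this
    exact this
  have ha2 : P.a2 = A2 • n1 + B2 • n2 := by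
    have := cpl P.a2
    rw [P.n12, P.n22, hA2, hB2, zero_smul, zero_smul, zero_add, zero_add] at this
    exact this
  have hA : A1 + A2 = w := by
    have h3 : n1 ⬝ᵥ N = w := by rw [hn1, dotProduct_smul, m11, smul_eq_mul, mul_one]
    rw [hN, dotProduct_add, hA1, hA2] at h3
    exact h3
  have hB : B1 + B2 = 0 := by
    have h3 : n2 ⬝ᵥ N = 0 := by rw [hn1, dotProduct_smul, m21, smul_zero]
    rw [hN, dotProduct_add, hB1, hB2] at h3
    exact h3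
  -- derivatives of the frame
  have d11 : dv P.e1 P.u1 = P.p • P.u2 + A1 • n1 + B1 • n2 := by
    rw [P.s11, ha1, add_assoc]
  have d22 : dv P.e2 P.u2 = P.q • P.u1 + A2 • n1 + B2 • n2 := by
    rw [P.s22, ha2, add_assoc]
  have d12 := P.s12
  have d21 := P.s21
  obtain ⟨S1, hS1⟩ : ∃ S1, n2 ⬝ᵥ dv P.e1 n1 = S1 := ⟨_, rfl⟩
  obtain ⟨S2, hS2⟩ : ∃ S2, n2 ⬝ᵥ dv P.e2 n1 = S2 := ⟨_, rfl⟩
  have hd : ∀ (D : Derivation ℤ K K) (v w' : Fin 4 → K) (t : K), v ⬝ᵥ w' = t → D t = 0 →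
      dv D v ⬝ᵥ w' + v ⬝ᵥ dv D w' = 0 := by
    intro D v w' t h1 h2
    rw [← d_dot, h1, h2]
  have h10 : ∀ D : Derivation ℤ K K, D (1 : K) = 0 := fun D => by simp
  have h00 : ∀ D : Derivation ℤ K K, D (0 : K) = 0 := fun D => by simp
  have f11 : dv P.e1 n1 = -A1 • P.u1 + S1 • n2 := by
    have c1 := hd P.e1 P.u1 n1 0 u1n1 (h00 _)
    have c2 := hd P.e1 P.u2 n1 0 u2n1 (h00 _)
    have c3 := hd P.e1 n1 n1 1 m11 (h10 _)
    rw [d11] at c1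
    rw [d12] at c2
    simp only [add_dotProduct, smul_dotProduct, dotProduct_add, dotProduct_smul, u2n1, m11, m21,
      u1n1, smul_eq_mul, neg_dotProduct, neg_smul] at c1 c2 c3
    rw [dotProduct_comm (dv P.e1 n1) n1] at c3
    have e1 : P.u1 ⬝ᵥ dv P.e1 n1 = -A1 := by linear_combination c1
    have e2 : P.u2 ⬝ᵥ dv P.e1 n1 = 0 := by linear_combination c2
    have e3 : n1 ⬝ᵥ dv P.e1 n1 = 0 := by
      have : 2 * (n1 ⬝ᵥ dv P.e1 n1) = 0 := by linear_combination c3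
      exact (mul_eq_zero.mp this).resolve_left h2
    have := cpl (dv P.e1 n1)
    rw [e1, e2, e3, hS1] at this
    rw [this]
    simp
  have f12 : dv P.e2 n1 = -A2 • P.u2 + S2 • n2 := by
    have c1 := hd P.e2 P.u1 n1 0 u1n1 (h00 _)
    have c2 := hd P.e2 P.u2 n1 0 u2n1 (h00 _)
    have c3 := hd P.e2 n1 n1 1 m11 (h10 _)
    rw [d21] at c1
    rw [d22] at c2
    simp only [add_dotProduct, smul_dotProduct, dotProduct_add, dotProduct_smul, u2n1, m11, m21,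
      u1n1, smul_eq_mul, neg_dotProduct, neg_smul] at c1 c2 c3
    rw [dotProduct_comm (dv P.e2 n1) n1] at c3
    have e1 : P.u1 ⬝ᵥ dv P.e2 n1 = 0 := by linear_combination c1
    have e2 : P.u2 ⬝ᵥ dv P.e2 n1 = -A2 := by linear_combination c2
    have e3 : n1 ⬝ᵥ dv P.e2 n1 = 0 := by
      have : 2 * (n1 ⬝ᵥ dv P.e2 n1) = 0 := by linear_combination c3
      exact (mul_eq_zero.mp this).resolve_left h2
    have := cpl (dv P.e2 n1)
    rw [e1, e2, e3, hS2] at this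
    rw [this]
    simp
  have f21 : dv P.e1 n2 = -B1 • P.u1 + -S1 • n1 := by
    have c1 := hd P.e1 P.u1 n2 0 u1n2 (h00 _)
    have c2 := hd P.e1 P.u2 n2 0 u2n2 (h00 _)
    have c3 := hd P.e1 n2 n2 1 m22 (h10 _)
    have c4 := hd P.e1 n1 n2 0 m12 (h00 _)
    rw [d11] at c1
    rw [d12] at c2
    rw [dotProduct_comm (dv P.e1 n1) n2, hS1] at c4
    simp only [add_dotProduct, smul_dotProduct, dotProduct_add, dotProduct_smul, u2n2, m12, m22,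
      u1n2, smul_eq_mul, neg_dotProduct, neg_smul] at c1 c2 c3
    rw [dotProduct_comm (dv P.e1 n2) n2] at c3
    have e1 : P.u1 ⬝ᵥ dv P.e1 n2 = -B1 := by linear_combination c1
    have e2 : P.u2 ⬝ᵥ dv P.e1 n2 = 0 := by linear_combination c2
    have e3 : n2 ⬝ᵥ dv P.e1 n2 = 0 := by
      have : 2 * (n2 ⬝ᵥ dv P.e1 n2) = 0 := by linear_combination c3
      exact (mul_eq_zero.mp this).resolve_left h2
    have e4 : n1 ⬝ᵥ dv P.e1 n2 = -S1 := by linear_combination c4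
    have := cpl (dv P.e1 n2)
    rw [e1, e2, e3, e4] at this
    rw [this]
    simp
  have f22 : dv P.e2 n2 = -B2 • P.u2 + -S2 • n1 := by
    have c1 := hd P.e2 P.u1 n2 0 u1n2 (h00 _)
    have c2 := hd P.e2 P.u2 n2 0 u2n2 (h00 _)
    have c3 := hd P.e2 n2 n2 1 m22 (h10 _)
    have c4 := hd P.e2 n1 n2 0 m12 (h00 _)
    rw [d21] at c1
    rw [d22] at c2
    rw [dotProduct_comm (dv P.e2 n1) n2, hS2] at c4
    simp only [add_dotProduct, smul_dotProduct, dotProduct_add, dotProduct_smul, u2n2, m12, m22,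
      u1n2, smul_eq_mul, neg_dotProduct, neg_smul] at c1 c2 c3
    rw [dotProduct_comm (dv P.e2 n2) n2] at c3
    have e1 : P.u1 ⬝ᵥ dv P.e2 n2 = 0 := by linear_combination c1
    have e2 : P.u2 ⬝ᵥ dv P.e2 n2 = -B2 := by linear_combination c2
    have e3 : n2 ⬝ᵥ dv P.e2 n2 = 0 := by
      have : 2 * (n2 ⬝ᵥ dv P.e2 n2) = 0 := by linear_combination c3
      exact (mul_eq_zero.mp this).resolve_left h2
    have e4 : n1 ⬝ᵥ dv P.e2 n2 = -S2 := by linear_combination c4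
    have := cpl (dv P.e2 n2)
    rw [e1, e2, e3, e4] at this
    rw [this]
    simp
  have vc : ∀ v : Fin 4 → K, dv P.e1 (dv P.e2 v) - dv P.e2 (dv P.e1 v)
      = -P.p • dv P.e1 v + P.q • dv P.e2 v := by
    intro v
    funext k
    have := P.comm (v k)
    simpa [dv] using this
  -- the equations
  have k1 := vc P.u1
  have k2 := vc P.u2
  have k3 := vc n1
  rw [d11, d21] at k1
  rw [d12, d22] at k2
  rw [f11, f12] at k3
  have kl := P.lap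
  have hNN : P.a1 + P.a2 = w • n1 := hn1
  rw [hNN] at kl
  simp only [dv_add, dv_smul, d11, d12, d21, d22, f11, f12, f21, f22] at k1 k2 k3 kl
  have kl1 := congrArg (fun v => v ⬝ᵥ P.u1) kl
  have kl2 := congrArg (fun v => v ⬝ᵥ P.u2) kl
  have kl3 := congrArg (fun v => v ⬝ᵥ n1) kl
  have kl4 := congrArg (fun v => v ⬝ᵥ n2) kl
  have k12 := congrArg (fun v => v ⬝ᵥ P.u2) k1
  have k13 := congrArg (fun v => v ⬝ᵥ n1) k1
  have k14 := congrArg (fun v => v ⬝ᵥ n2) k1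
  have k23 := congrArg (fun v => v ⬝ᵥ n1) k2
  have k24 := congrArg (fun v => v ⬝ᵥ n2) k2
  have k34 := congrArg (fun v => v ⬝ᵥ n2) k3
  simp only [add_dotProduct, sub_dotProduct, smul_dotProduct, smul_eq_mul, neg_dotProduct,
    P.o11, P.o12, P.o22, u2u1, n1u1, n1u2, n2u1, n2u2, m21, u1n1, u1n2, u2n1, u2n2, m11, m12, m22,
    map_neg, map_add, Derivation.leibniz, mul_zero, mul_one, add_zero, zero_add, neg_zero,
    sub_zero, zero_sub]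
    at kl1 kl2 kl3 kl4 k12 k13 k14 k23 k24 k34
  obtain ⟨xi, hxi⟩ : ∃ xi : K, w * xi = A1 - A2 := ⟨(A1 - A2) / w, by field_simp⟩
  obtain ⟨eta, heta⟩ : ∃ eta : K, w * eta = 2 * B1 := ⟨2 * B1 / w, by field_simp⟩
  have hd2 : ∀ (D : Derivation ℤ K K) (f : K), D (2 * f) = 2 * D f := by
    intro D f
    rw [two_mul, two_mul, map_add]
  have x1 : w * (1 + xi) = 2 * A1 := by linear_combination hxi - hA
  have x2 : w * (1 - xi) = 2 * A2 := by linear_combination -hxi - hA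
  have eA1 : P.e1 w = P.e1 A1 + P.e1 A2 := by rw [← hA, map_add]
  have eA2 : P.e2 w = P.e2 A1 + P.e2 A2 := by rw [← hA, map_add]
  have eB1 : P.e1 B1 + P.e1 B2 = 0 := by rw [← map_add, hB, h00]
  have t1 : w * ((2 + xi) * P.e1 w + eta * w * S1) = 0 := by
    linear_combination P.e1 w * x1 + w * S1 * heta - kl1 + w * eA1 + w * k23 + w * S1 * hB
  have t2 : w * ((2 - xi) * P.e2 w - eta * w * S2) = 0 := by
    linear_combination P.e2 w * x2 - w * S2 * heta - kl2 + w * eA2 - w * k13 - w * S2 * hB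
  refine ⟨{ e1 := P.e1, e2 := P.e2, p := P.p, q := P.q, w := w, xi := xi, eta := eta,
            s1 := S1, s2 := S2, c := P.c, comm := P.comm, hc1 := P.hc1, hc2 := P.hc2,
            hc := P.hc, hw := hw, cod1 := ?_, cod2 := ?_, cod3 := ?_,
            cod4 := ?_, gauss := ?_, ricci := ?_, tan1 := ?_, tan2 := ?_, nor1 := ?_,
            nor2 := ?_ }, rfl, rfl, hw2.symm⟩
  · rw [x1, hd2]
    linear_combination -2 * k13 - 2 * P.p * hxi - S2 * heta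
  · rw [heta, hd2]
    linear_combination -2 * k14 - 2 * P.p * heta + S2 * x1 - 2 * P.p * hB
  · rw [x2, hd2]
    linear_combination 2 * k23 + 2 * P.q * hxi + S1 * heta + 2 * S1 * hB
  · rw [heta, hd2]
    linear_combination 2 * eB1 - 2 * k24 - 2 * P.q * heta - S1 * x2 - 2 * P.q * hB
  · linear_combination -k12 - 1 / 4 * (w * (1 - xi)) * x1 - 1 / 4 * (2 * A1) * x2
      + 1 / 4 * (w * eta + 2 * B1) * heta + B1 * hB
  · exact k34
  · exact (mul_eq_zero.mp t1).resolve_left hw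
  · exact (mul_eq_zero.mp t2).resolve_left hw
  · linear_combination kl3 - w / 4 * (w * (1 + xi) + 2 * A1) * x1
      - w / 4 * (w * (1 - xi) + 2 * A2) * x2
  · linear_combination kl4 - w / 2 * (w * eta) * hxi - w / 2 * (A1 - A2) * heta + w * A2 * hB

end Pool.H60.PE
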