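import Pool.Agent.H60.PE.CBf
import Pool.Agent.H60.PE.CNf

/-!
# The theorem over a differential field in which each element is a square
-/

namespace Pool.H60.PE

open Matrix

theorem geo_main {K : Type} [Field K] [CharZero K] (I : Imm K) (i : Fin 2) :
    I.D.d i (trK I.D I.X ⬝ᵥ trK I.D I.X) = 0 := by
  rcases exists_pf I with ⟨P, hP, hd⟩ | ⟨B, hB, hd⟩
  · by_cases h : (P.a1 + P.a2) ⬝ᵥ (P.a1 + P.a2) = 0
    · rw [← hP, h, map_zero]
    · obtain ⟨D, h1, h2, hw⟩ := exists_nf P h
      obtain ⟨k1, k2⟩ := D.const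
      rw [← hP, ← hw]
      apply hd
      · rw [← h1, pow_two, Derivation.leibniz, k1]
        simp
      · rw [← h2, pow_two, Derivation.leibniz, k2]
        simp
  · obtain ⟨k1, k2⟩ := B.const
    rw [← hB]
    exact hd _ k1 k2 i

end Pool.H60.PE
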