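import Pool.Agent.H60.PE.CRot
import Pool.Agent.H60.PE.CBra

/-!
# The principal frame as a `PF`, and the isotropic case as a `BF`

(Partly adapted from `Pool.Agent.H99.N2.GPf`.)
-/

set_option linter.unusedSectionVars false

namespace Pool.H60.PE

open Matrix

variable {K : Type} [Field K]

/-- derivative of a dot product -/
theorem cpf_der_dot (D : Derivation ℤ K K) (v w : Fin 4 → K) :
    D (v ⬝ᵥ w) = dv D v ⬝ᵥ w + v ⬝ᵥ dv D w := by
  simp only [dotProduct, dv, map_sum, Derivation.leibniz, smul_eq_mul]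
  rw [← Finset.sum_add_distrib]
  exact Finset.sum_congr rfl fun i _ => by ring

theorem cpf_dv_add (E : Derivation ℤ K K) (v w : Fin 4 → K) :
    dv E (v + w) = dv E v + dv E w := by
  funext k
  simp [dv]

theorem cpf_dv_smul (E : Derivation ℤ K K) (f : K) (v : Fin 4 → K) :
    dv E (f • v) = E f • v + f • dv E v := by
  funext k
  simp only [dv, Pi.smul_apply, Pi.add_apply, smul_eq_mul, Derivation.leibniz]
  ring

private theorem smul_der {K : Type} [Field K] (D : Fin 2 → Derivation ℤ K K) (a : Fin 2 → K)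
    (f : K) : (∑ i, a i • D i) f = a 0 * D 0 f + a 1 * D 1 f := by
  simp [Fin.sum_univ_two]

/-- A square root of `-1` is a constant. -/
theorem der_i [CharZero K] (E : Derivation ℤ K K) {i : K} (hi : i ^ 2 = -1) : E i = 0 := by
  have hi0 : i ≠ 0 := by
    rintro rfl
    norm_num at hi
  have h := congrArg E hi
  rw [pow_two, Derivation.leibniz, map_neg, Derivation.map_one_eq_zero, smul_eq_mul] at h
  have h2 : (2 * i) * E i = 0 := by linear_combination h
  exact (mul_eq_zero.1 h2).resolve_left (mul_ne_zero two_ne_zero hi0)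

section frame

variable [CharZero K] {D : DC K} {X : Fin 4 → K} (F : OFr D X)

theorem OFr.q11 : F.u1 ⬝ᵥ F.u1 = 1 := by rw [OFr.u1_eq]; exact F.o11
theorem OFr.q12 : F.u1 ⬝ᵥ F.u2 = 0 := by rw [OFr.u1_eq, OFr.u2_eq]; exact F.o12
theorem OFr.q22 : F.u2 ⬝ᵥ F.u2 = 1 := by rw [OFr.u2_eq]; exact F.o22
theorem OFr.q21 : F.u2 ⬝ᵥ F.u1 = 0 := by rw [dotProduct_comm]; exact F.q12

private theorem self0 (D : Derivation ℤ K K) (v : Fin 4 → K) (hv : v ⬝ᵥ v = 1) :
    v ⬝ᵥ dv D v = 0 := by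
  have h := cpf_der_dot D v v
  rw [hv, Derivation.map_one_eq_zero, dotProduct_comm (dv D v) v] at h
  have h' : 2 * (v ⬝ᵥ dv D v) = 0 := by linear_combination -h
  exact (mul_eq_zero.1 h').resolve_left two_ne_zero

theorem OFr.d1u1 : F.u1 ⬝ᵥ dv F.e1 F.u1 = 0 := self0 _ _ F.q11
theorem OFr.d1u2 : F.u2 ⬝ᵥ dv F.e1 F.u2 = 0 := self0 _ _ F.q22
theorem OFr.d2u1 : F.u1 ⬝ᵥ dv F.e2 F.u1 = 0 := self0 _ _ F.q11
theorem OFr.d2u2 : F.u2 ⬝ᵥ dv F.e2 F.u2 = 0 := self0 _ _ F.q22
theorem OFr.hp : F.u2 ⬝ᵥ dv F.e1 F.u1 = F.p := by rw [dotProduct_comm]; rfl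
theorem OFr.hq : F.u1 ⬝ᵥ dv F.e2 F.u2 = F.q := by rw [dotProduct_comm]; rfl

theorem OFr.hp' : F.u1 ⬝ᵥ dv F.e1 F.u2 = -F.p := by
  have h := cpf_der_dot F.e1 F.u1 F.u2
  rw [F.q12, map_zero] at h
  have h3 : dv F.e1 F.u1 ⬝ᵥ F.u2 = F.p := rfl
  rw [h3] at h
  linear_combination -h

theorem OFr.hq' : F.u2 ⬝ᵥ dv F.e2 F.u1 = -F.q := by
  have h := cpf_der_dot F.e2 F.u2 F.u1
  rw [F.q21, map_zero] at h
  have h3 : dv F.e2 F.u2 ⬝ᵥ F.u1 = F.q := rfl
  rw [h3] at h
  linear_combination -h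

theorem OFr.g11 : dv F.e1 F.u1 = F.p • F.u2 + norK D X (dv F.e1 F.u1) := by
  rw [OFr.nor_eq F, F.d1u1, F.hp]
  ext k
  simp only [Pi.add_apply, Pi.sub_apply, Pi.smul_apply, smul_eq_mul]
  ring

theorem OFr.g22 : dv F.e2 F.u2 = F.q • F.u1 + norK D X (dv F.e2 F.u2) := by
  rw [OFr.nor_eq F, F.d2u2, F.hq]
  ext k
  simp only [Pi.add_apply, Pi.sub_apply, Pi.smul_apply, smul_eq_mul]
  ring

theorem OFr.g12 : dv F.e1 F.u2 = -F.p • F.u1 + norK D X (dv F.e1 F.u2) := by
  rw [OFr.nor_eq F, F.d1u2, F.hp']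
  ext k
  simp only [Pi.add_apply, Pi.sub_apply, Pi.smul_apply, smul_eq_mul]
  ring

theorem OFr.g21 : dv F.e2 F.u1 = -F.q • F.u2 + norK D X (dv F.e2 F.u1) := by
  rw [OFr.nor_eq F, F.d2u1, F.hq']
  ext k
  simp only [Pi.add_apply, Pi.sub_apply, Pi.smul_apply, smul_eq_mul]
  ring

theorem OFr.nn1 (v : Fin 4 → K) : F.u1 ⬝ᵥ norK D X v = 0 := by
  rw [OFr.nor_eq F, dotProduct_sub, dotProduct_sub, dotProduct_smul, dotProduct_smul, F.q11,
    F.q12]
  simp

theorem OFr.nn2 (v : Fin 4 → K) : F.u2 ⬝ᵥ norK D X v = 0 := by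
  rw [OFr.nor_eq F, dotProduct_sub, dotProduct_sub, dotProduct_smul, dotProduct_smul, F.q21,
    F.q22]
  simp

theorem OFr.der_zero (f : K) (hf1 : F.e1 f = 0) (hf2 : F.e2 f = 0) (i : Fin 2) :
    D.d i f = 0 := by
  have ha1 : F.e1 f = F.a 0 * D.d 0 f + F.a 1 * D.d 1 f := smul_der D.d F.a f
  have ha2 : F.e2 f = F.b 0 * D.d 0 f + F.b 1 * D.d 1 f := smul_der D.d F.b f
  have hd := OFr.det_sq F
  have hdet : F.a 0 * F.b 1 - F.a 1 * F.b 0 ≠ 0 := by
    intro h0
    rw [h0] at hd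
    norm_num at hd
  rw [hf1] at ha1
  rw [hf2] at ha2
  have k0 : (F.a 0 * F.b 1 - F.a 1 * F.b 0) * D.d 0 f = 0 := by
    linear_combination F.a 1 * ha2 - F.b 1 * ha1
  have k1 : (F.a 0 * F.b 1 - F.a 1 * F.b 0) * D.d 1 f = 0 := by
    linear_combination F.b 0 * ha1 - F.a 0 * ha2
  fin_cases i
  · exact (mul_eq_zero.1 k0).resolve_left hdet
  · exact (mul_eq_zero.1 k1).resolve_left hdet

theorem OFr.const {c : K} (h : ∀ i, D.d i c = 0) : F.e1 c = 0 ∧ F.e2 c = 0 := by
  constructor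
  · rw [show F.e1 c = F.a 0 * D.d 0 c + F.a 1 * D.d 1 c from smul_der D.d F.a c, h, h]; ring
  · rw [show F.e2 c = F.b 0 * D.d 0 c + F.b 1 * D.d 1 c from smul_der D.d F.b c, h, h]; ring

end frame

theorem exists_pf [CharZero K] (I : Imm K) :
    (∃ P : PF K, P.a1 + P.a2 = trK I.D I.X ∧
      (∀ f : K, P.e1 f = 0 → P.e2 f = 0 → ∀ i, I.D.d i f = 0)) ∨
    (∃ B : BF K, B.m = trK I.D I.X ∧
      (∀ f : K, B.f1 f = 0 → B.f2 f = 0 → ∀ i, I.D.d i f = 0)) := by
  have hg : gdet I.D I.X ≠ 0 := by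
    intro h
    apply I.hne
    have h4 : I.del ^ 4 = 0 := by rw [I.hdel, h]; ring
    exact (pow_eq_zero_iff (by norm_num)).1 h4
  have lapF : ∀ F : OFr I.D I.X, dv F.e1 (dv F.e1 (trK I.D I.X))
      + dv F.e2 (dv F.e2 (trK I.D I.X)) - F.p • dv F.e2 (trK I.D I.X)
      - F.q • dv F.e1 (trK I.D I.X) = -I.c • trK I.D I.X := by
    intro F
    ext k
    have h1 := OFr.lap_eq F I.del I.hdel (trK I.D I.X k)
    rw [I.hlap k] at h1
    simp only [dv, Pi.add_apply, Pi.sub_apply, Pi.smul_apply, smul_eq_mul]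
    linear_combination h1
  rcases exists_principal I.D I.X hg I.flat with ⟨F, hF⟩ | ⟨F, i, hi, hF⟩
  · left
    have s12 : dv F.e1 F.u2 = -F.p • F.u1 := by
      have h := F.g12
      rw [hF, add_zero] at h
      exact h
    have s21 : dv F.e2 F.u1 = -F.q • F.u2 := by
      have h := F.g21
      rw [crot_symm F hg, hF, add_zero] at h
      exact h
    obtain ⟨hc1, hc2⟩ := F.const I.hdc
    refine ⟨{ e1 := F.e1, e2 := F.e2, p := F.p, q := F.q, c := I.c, u1 := F.u1, u2 := F.u2,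
              a1 := norK I.D I.X (dv F.e1 F.u1), a2 := norK I.D I.X (dv F.e2 F.u2),
              comm := OFr.comm F, root := I.D.root,
              hc1 := hc1, hc2 := hc2, hc := I.hc, o11 := F.q11, o12 := F.q12, o22 := F.q22,
              n11 := F.nn1 _, n12 := F.nn1 _, n21 := F.nn2 _, n22 := F.nn2 _,
              s11 := F.g11, s12 := s12, s21 := s21, s22 := F.g22, lap := ?_ }, F.tr_eq.symm,
              F.der_zero⟩
    rw [← F.tr_eq]
    exact lapF F
  · right
    set h12 := norK I.D I.X (dv F.e1 F.u2) with hh12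
    set h11 := norK I.D I.X (dv F.e1 F.u1) with hh11
    set h22 := norK I.D I.X (dv F.e2 F.u2) with hh22
    have hi1 : F.e1 i = 0 := der_i F.e1 hi
    have hi2 : F.e2 i = 0 := der_i F.e2 hi
    have g11 : dv F.e1 F.u1 = F.p • F.u2 + h11 := F.g11
    have g22 : dv F.e2 F.u2 = F.q • F.u1 + h22 := F.g22
    have g12 : dv F.e1 F.u2 = -F.p • F.u1 + h12 := F.g12
    have g21 : dv F.e2 F.u1 = -F.q • F.u2 + h12 := by
      have h := F.g21
      rw [crot_symm F hg] at h
      exact h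
    have htr : trK I.D I.X = h11 + h22 := F.tr_eq
    have o11 := F.q11
    have o12 := F.q12
    have o21 := F.q21
    have o22 := F.q22
    have ap1 : ∀ (v : Fin 4 → K), dv (F.e1 + i • F.e2) v = dv F.e1 v + i • dv F.e2 v := by
      intro v
      funext k
      simp [dv]
    have ap2 : ∀ (v : Fin 4 → K), dv (F.e1 + (-i) • F.e2) v = dv F.e1 v + (-i) • dv F.e2 v := by
      intro v
      funext k
      simp [dv]
    have n1 : ∀ v, (F.u1 + i • F.u2) ⬝ᵥ norK I.D I.X v = 0 := by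
      intro v
      rw [add_dotProduct, smul_dotProduct, F.nn1, F.nn2]
      simp
    have n2 : ∀ v, (F.u1 + (-i) • F.u2) ⬝ᵥ norK I.D I.X v = 0 := by
      intro v
      rw [add_dotProduct, smul_dotProduct, F.nn1, F.nn2]
      simp
    refine ⟨{ f1 := F.e1 + i • F.e2, f2 := F.e1 + (-i) • F.e2, w1 := -(i * F.p + F.q),
              w2 := F.q - i * F.p, c := I.c, v1 := F.u1 + i • F.u2, v2 := F.u1 + (-i) • F.u2,
              m := h11 + h22, nu := (4 * i) • h12, comm := ?_, o11 := ?_, o12 := ?_, o22 := ?_,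
              n1 := ?_, n2 := ?_, k1 := ?_, k2 := ?_, s11 := ?_, s12 := ?_, s21 := ?_, s22 := ?_,
              lap := ?_ }, htr.symm, ?_⟩
    · intro g
      have hc := F.comm g
      simp only [Derivation.add_apply, Derivation.smul_apply, smul_eq_mul, map_add, map_neg,
        Derivation.leibniz, hi1, hi2]
      linear_combination -2 * i * hc
    · simp only [add_dotProduct, dotProduct_add, smul_dotProduct, dotProduct_smul, smul_eq_mul,
        o11, o12, o21, o22]
      linear_combination hi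
    · simp only [add_dotProduct, dotProduct_add, smul_dotProduct, dotProduct_smul, smul_eq_mul,
        o11, o12, o21, o22]
      linear_combination -hi
    · simp only [add_dotProduct, dotProduct_add, smul_dotProduct, dotProduct_smul, smul_eq_mul,
        o11, o12, o21, o22]
      linear_combination hi
    · rw [dotProduct_add, n1, n1, add_zero]
    · rw [dotProduct_add, n2, n2, add_zero]
    · rw [dotProduct_smul, n1, smul_zero]
    · rw [dotProduct_smul, n2, smul_zero]
    · rw [ap1, cpf_dv_add, cpf_dv_add, cpf_dv_smul, cpf_dv_smul, hi1, hi2, g11, g12, g21, g22]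
      funext k
      have hk := congrFun hF k
      simp only [Pi.add_apply, Pi.sub_apply, Pi.smul_apply, smul_eq_mul] at hk ⊢
      linear_combination hk + (F.q * F.u1 k + h22 k + F.p * F.u2 k) * hi
    · rw [ap1, cpf_dv_add, cpf_dv_add, cpf_dv_smul, cpf_dv_smul, map_neg, map_neg, hi1, hi2, g11,
        g12, g21, g22]
      funext k
      simp only [Pi.add_apply, Pi.smul_apply, smul_eq_mul]
      linear_combination (-(F.q * F.u1 k) - h22 k + F.p * F.u2 k) * hi
    · rw [ap2, cpf_dv_add, cpf_dv_add, cpf_dv_smul, cpf_dv_smul, hi1, hi2, g11, g12, g21, g22]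
      funext k
      simp only [Pi.add_apply, Pi.smul_apply, smul_eq_mul]
      linear_combination (-(F.q * F.u1 k) - h22 k + F.p * F.u2 k) * hi
    · rw [ap2, cpf_dv_add, cpf_dv_add, cpf_dv_smul, cpf_dv_smul, map_neg, map_neg, hi1, hi2, g11,
        g12, g21, g22]
      funext k
      have hk := congrFun hF k
      simp only [Pi.add_apply, Pi.sub_apply, Pi.smul_apply, smul_eq_mul] at hk ⊢
      linear_combination hk + (F.q * F.u1 k + h22 k + F.p * F.u2 k) * hi
    · have hl := lapF F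
      rw [htr] at hl
      simp only [ap1, ap2, cpf_dv_add, cpf_dv_smul, map_neg, hi1, hi2] at hl ⊢
      funext k
      have hk := congrFun hl k
      simp only [Pi.add_apply, Pi.sub_apply, Pi.smul_apply, smul_eq_mul] at hk ⊢
      linear_combination 2 * hk
        - 2 * (dv F.e2 (dv F.e2 h11) k + dv F.e2 (dv F.e2 h22) k) * hi
        + 2 * F.p * (dv F.e2 h11 k + dv F.e2 h22 k) * hi
    · intro f h1 h2
      simp only [Derivation.add_apply, Derivation.smul_apply, smul_eq_mul] at h1 h2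
      have hi0 : i ≠ 0 := by
        rintro rfl
        norm_num at hi
      have h3 : F.e1 f = 0 := by
        have : 2 * F.e1 f = 0 := by linear_combination h1 + h2
        exact (mul_eq_zero.1 this).resolve_left two_ne_zero
      have h4 : F.e2 f = 0 := by
        have : (2 * i) * F.e2 f = 0 := by linear_combination h1 - h2
        exact (mul_eq_zero.1 this).resolve_left (mul_ne_zero two_ne_zero hi0)
      exact F.der_zero f h3 h4

end Pool.H60.PE
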