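import Pool.Agent.H60.PE.CFrame

/-!
# The Ricci equation

(Adapted from `Pool.Agent.H99.N2.GRic`.)
-/

set_option linter.unusedSectionVars false

namespace Pool.H60.PE

open Matrix

variable {K : Type} [Field K] [CharZero K]

namespace OFr

variable {D : DC K} {X : Fin 4 → K}

private theorem e1_ap (F : OFr D X) (f : K) :
    F.e1 f = F.a 0 * D.d 0 f + F.a 1 * D.d 1 f := by
  simp [e1, Fin.sum_univ_two, Derivation.add_apply, Derivation.smul_apply]

private theorem e2_ap (F : OFr D X) (f : K) :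
    F.e2 f = F.b 0 * D.d 0 f + F.b 1 * D.d 1 f := by
  simp [e2, Fin.sum_univ_two, Derivation.add_apply, Derivation.smul_apply]

private theorem dv1 (F : OFr D X) (v : Fin 4 → K) :
    dv F.e1 v = F.a 0 • dv (D.d 0) v + F.a 1 • dv (D.d 1) v := by
  funext k; exact F.e1_ap (v k)

private theorem dv2 (F : OFr D X) (v : Fin 4 → K) :
    dv F.e2 v = F.b 0 • dv (D.d 0) v + F.b 1 • dv (D.d 1) v := by
  funext k; exact F.e2_ap (v k)

private theorem dvadd (E : Derivation ℤ K K) (v w : Fin 4 → K) :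
    dv E (v + w) = dv E v + dv E w := by
  funext k; simp [dv]

private theorem dvsub (E : Derivation ℤ K K) (v w : Fin 4 → K) :
    dv E (v - w) = dv E v - dv E w := by
  funext k; simp [dv]

private theorem dvsmul (E : Derivation ℤ K K) (f : K) (v : Fin 4 → K) :
    dv E (f • v) = E f • v + f • dv E v := by
  funext k; simp [dv, Derivation.leibniz, mul_comm, add_comm]

private theorem dvcomm (D : DC K) (v : Fin 4 → K) :
    dv (D.d 0) (dv (D.d 1) v) = dv (D.d 1) (dv (D.d 0) v) := by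
  funext k; exact D.comm (v k)

private theorem dvsingle (E : Derivation ℤ K K) (m : Fin 4) :
    dv E (Pi.single m (1 : K)) = 0 := by
  funext k
  by_cases h : k = m
  · subst h; simp [dv]
  · simp [dv, h]

private theorem ddot (E : Derivation ℤ K K) (v w : Fin 4 → K) :
    E (v ⬝ᵥ w) = dv E v ⬝ᵥ w + v ⬝ᵥ dv E w := by
  simp only [dotProduct, Fin.sum_univ_four, dv, map_add, Derivation.leibniz, smul_eq_mul]
  ring

private theorem v11 (F : OFr D X) : F.u1 ⬝ᵥ F.u1 = 1 := by rw [u1_eq]; exact F.o11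
private theorem v12 (F : OFr D X) : F.u1 ⬝ᵥ F.u2 = 0 := by rw [u1_eq, u2_eq]; exact F.o12
private theorem v22 (F : OFr D X) : F.u2 ⬝ᵥ F.u2 = 1 := by rw [u2_eq]; exact F.o22

private theorem nadd (F : OFr D X) (v w : Fin 4 → K) :
    norK D X (v + w) = norK D X v + norK D X w := by
  rw [F.nor_eq, F.nor_eq, F.nor_eq]
  funext k
  simp only [dotProduct_add, Pi.add_apply, Pi.sub_apply, Pi.smul_apply, smul_eq_mul]
  ring

private theorem nsub (F : OFr D X) (v w : Fin 4 → K) :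
    norK D X (v - w) = norK D X v - norK D X w := by
  rw [F.nor_eq, F.nor_eq, F.nor_eq]
  funext k
  simp only [dotProduct_sub, Pi.sub_apply, Pi.smul_apply, smul_eq_mul]
  ring

private theorem nsmul (F : OFr D X) (f : K) (v : Fin 4 → K) :
    norK D X (f • v) = f • norK D X v := by
  rw [F.nor_eq, F.nor_eq]
  funext k
  simp only [dotProduct_smul, Pi.sub_apply, Pi.smul_apply, smul_eq_mul]
  ring

private theorem nu1 (F : OFr D X) : norK D X F.u1 = 0 := by
  rw [F.nor_eq, F.v11, dotProduct_comm F.u2, F.v12]; simp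

private theorem nu2 (F : OFr D X) : norK D X F.u2 = 0 := by
  rw [F.nor_eq, F.v22, F.v12]; simp

private theorem nzero (F : OFr D X) : norK D X 0 = 0 := by
  rw [F.nor_eq]; simp

private theorem del_ne (F : OFr D X) : F.a 0 * F.b 1 - F.a 1 * F.b 0 ≠ 0 := by
  intro h
  have h1 := F.det_sq
  rw [h] at h1
  simp at h1

/-- the normal derivative of the projected coordinate vector -/
private theorem ndxi (F : OFr D X) (i : Fin 2) (m : Fin 4) :
    norK D X (dv (D.d i) (norK D X (Pi.single m 1)))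
      = -(F.u1 m • norK D X (dv (D.d i) F.u1) + F.u2 m • norK D X (dv (D.d i) F.u2)) := by
  have h : norK D X (Pi.single m (1 : K))
      = Pi.single m 1 - F.u1 m • F.u1 - F.u2 m • F.u2 := by
    rw [F.nor_eq]; simp
  rw [h, dvsub, dvsub, dvsmul, dvsmul, dvsingle, F.nsub, F.nsub, F.nadd, F.nadd, F.nsmul, F.nsmul,
    F.nsmul, F.nsmul, F.nu1, F.nu2, F.nzero]
  simp only [smul_zero, zero_add, zero_sub]
  abel

private theorem ndP (F : OFr D X) (i j : Fin 2) :
    norK D X (dv (D.d j) (norK D X (dv (D.d i) F.u1)))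
      = norK D X (dv (D.d j) (dv (D.d i) F.u1))
        - (F.u1 ⬝ᵥ dv (D.d i) F.u1) • norK D X (dv (D.d j) F.u1)
        - (F.u2 ⬝ᵥ dv (D.d i) F.u1) • norK D X (dv (D.d j) F.u2) := by
  conv_lhs => rw [F.nor_eq (dv (D.d i) F.u1)]
  rw [dvsub, dvsub, dvsmul, dvsmul, F.nsub, F.nsub, F.nadd, F.nadd, F.nsmul, F.nsmul, F.nsmul,
    F.nsmul, F.nu1, F.nu2]
  simp only [smul_zero, zero_add]

private theorem ndQ (F : OFr D X) (i j : Fin 2) :
    norK D X (dv (D.d j) (norK D X (dv (D.d i) F.u2)))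
      = norK D X (dv (D.d j) (dv (D.d i) F.u2))
        - (F.u1 ⬝ᵥ dv (D.d i) F.u2) • norK D X (dv (D.d j) F.u1)
        - (F.u2 ⬝ᵥ dv (D.d i) F.u2) • norK D X (dv (D.d j) F.u2) := by
  conv_lhs => rw [F.nor_eq (dv (D.d i) F.u2)]
  rw [dvsub, dvsub, dvsmul, dvsmul, F.nsub, F.nsub, F.nadd, F.nadd, F.nsmul, F.nsmul, F.nsmul,
    F.nsmul, F.nu1, F.nu2]
  simp only [smul_zero, zero_add]

private theorem w11 (F : OFr D X) (i : Fin 2) : F.u1 ⬝ᵥ dv (D.d i) F.u1 = 0 := by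
  have h := ddot (D.d i) F.u1 F.u1
  rw [F.v11, dotProduct_comm (dv _ _)] at h
  simp only [Derivation.map_one_eq_zero] at h
  have : (2 : K) * (F.u1 ⬝ᵥ dv (D.d i) F.u1) = 0 := by linear_combination -h
  exact (mul_eq_zero.1 this).resolve_left two_ne_zero

private theorem w22 (F : OFr D X) (i : Fin 2) : F.u2 ⬝ᵥ dv (D.d i) F.u2 = 0 := by
  have h := ddot (D.d i) F.u2 F.u2
  rw [F.v22, dotProduct_comm (dv _ _)] at h
  simp only [Derivation.map_one_eq_zero] at h
  have : (2 : K) * (F.u2 ⬝ᵥ dv (D.d i) F.u2) = 0 := by linear_combination -h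
  exact (mul_eq_zero.1 this).resolve_left two_ne_zero

private theorem w12 (F : OFr D X) (i : Fin 2) :
    F.u1 ⬝ᵥ dv (D.d i) F.u2 = -(F.u2 ⬝ᵥ dv (D.d i) F.u1) := by
  have h := ddot (D.d i) F.u1 F.u2
  rw [F.v12, dotProduct_comm (dv _ _)] at h
  simp only [map_zero] at h
  linear_combination -h

private theorem du1 (F : OFr D X) (i : Fin 2) (m : Fin 4) :
    D.d i (F.u1 m) = norK D X (dv (D.d i) F.u1) m + (F.u2 ⬝ᵥ dv (D.d i) F.u1) * F.u2 m := by
  rw [F.nor_eq, F.w11]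
  simp [dv]

private theorem du2 (F : OFr D X) (i : Fin 2) (m : Fin 4) :
    D.d i (F.u2 m) = norK D X (dv (D.d i) F.u2) m - (F.u2 ⬝ᵥ dv (D.d i) F.u1) * F.u1 m := by
  rw [F.nor_eq, F.w22, F.w12]
  simp [dv]

private theorem dvneg (E : Derivation ℤ K K) (v : Fin 4 → K) :
    dv E (-v) = -dv E v := by
  funext k; simp [dv]

private theorem nneg (F : OFr D X) (v : Fin 4 → K) : norK D X (-v) = -norK D X v := by
  have h := F.nsmul (-1) v
  simpa using h

private theorem nidem (F : OFr D X) (v : Fin 4 → K) : norK D X (norK D X v) = norK D X v := by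
  conv_lhs => rw [F.nor_eq v]
  rw [F.nsub, F.nsub, F.nsmul, F.nsmul, F.nu1, F.nu2]
  simp

private theorem ndd (F : OFr D X) (i j : Fin 2) (m n : Fin 4) :
    norK D X (dv (D.d j) (norK D X (dv (D.d i) (norK D X (Pi.single m 1))))) n
      = -(norK D X (dv (D.d j) F.u1) m * norK D X (dv (D.d i) F.u1) n
          + norK D X (dv (D.d j) F.u2) m * norK D X (dv (D.d i) F.u2) n)
        - (F.u1 m * norK D X (dv (D.d j) (dv (D.d i) F.u1)) n
            + F.u2 m * norK D X (dv (D.d j) (dv (D.d i) F.u2)) n)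
        - (F.u2 m * (F.u2 ⬝ᵥ dv (D.d j) F.u1) * norK D X (dv (D.d i) F.u1) n
            + F.u2 m * (F.u2 ⬝ᵥ dv (D.d i) F.u1) * norK D X (dv (D.d j) F.u1) n)
        + (F.u1 m * (F.u2 ⬝ᵥ dv (D.d j) F.u1) * norK D X (dv (D.d i) F.u2) n
            + F.u1 m * (F.u2 ⬝ᵥ dv (D.d i) F.u1) * norK D X (dv (D.d j) F.u2) n) := by
  rw [F.ndxi i m, dvneg, F.nneg, dvadd, F.nadd, dvsmul, dvsmul, F.nadd, F.nadd, F.nsmul, F.nsmul,
    F.nsmul, F.nsmul, F.nidem, F.nidem, F.ndP, F.ndQ, F.w11, F.w12, F.w22, F.du1, F.du2]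
  simp only [Pi.neg_apply, Pi.add_apply, Pi.sub_apply, Pi.smul_apply, smul_eq_mul]
  ring

theorem ricci (F : OFr D X)
    (flat : ∀ k : Fin 4,
      norK D X (dv (D.d 0) (norK D X (dv (D.d 1) (norK D X (Pi.single k 1)))))
        = norK D X (dv (D.d 1) (norK D X (dv (D.d 0) (norK D X (Pi.single k 1))))))
    (m n : Fin 4) :
    (norK D X (dv F.e1 F.u1) m - norK D X (dv F.e2 F.u2) m) * norK D X (dv F.e1 F.u2) n
      = (norK D X (dv F.e1 F.u1) n - norK D X (dv F.e2 F.u2) n) * norK D X (dv F.e1 F.u2) m := by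
  have hδ := F.del_ne
  have hfl := congrFun (flat m) n
  rw [F.ndd, F.ndd, dvcomm D F.u1, dvcomm D F.u2] at hfl
  set P0 := norK D X (dv (D.d 0) F.u1) with hP0
  set P1 := norK D X (dv (D.d 1) F.u1) with hP1
  set Q0 := norK D X (dv (D.d 0) F.u2) with hQ0
  set Q1 := norK D X (dv (D.d 1) F.u2) with hQ1
  have hfl' : P0 m * P1 n + Q0 m * Q1 n = P1 m * P0 n + Q1 m * Q0 n := by
    linear_combination -hfl
  have g11 : norK D X (dv F.e1 F.u1) = F.a 0 • P0 + F.a 1 • P1 := by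
    rw [F.dv1, F.nadd, F.nsmul, F.nsmul]
  have g12 : norK D X (dv F.e1 F.u2) = F.a 0 • Q0 + F.a 1 • Q1 := by
    rw [F.dv1, F.nadd, F.nsmul, F.nsmul]
  have g21 : norK D X (dv F.e2 F.u1) = F.b 0 • P0 + F.b 1 • P1 := by
    rw [F.dv2, F.nadd, F.nsmul, F.nsmul]
  have g22 : norK D X (dv F.e2 F.u2) = F.b 0 • Q0 + F.b 1 • Q1 := by
    rw [F.dv2, F.nadd, F.nsmul, F.nsmul]
  have x0 : (F.a 0 * F.b 1 - F.a 1 * F.b 0) • dv (D.d 0) X = F.b 1 • F.u1 - F.a 1 • F.u2 := by
    rw [u1_eq, u2_eq]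
    funext k
    simp only [Fin.sum_univ_two, Pi.smul_apply, Pi.add_apply, Pi.sub_apply, smul_eq_mul]
    ring
  have x1 : (F.a 0 * F.b 1 - F.a 1 * F.b 0) • dv (D.d 1) X = -F.b 0 • F.u1 + F.a 0 • F.u2 := by
    rw [u1_eq, u2_eq]
    funext k
    simp only [Fin.sum_univ_two, Pi.smul_apply, Pi.add_apply, smul_eq_mul]
    ring
  have nx0 : norK D X (dv (D.d 0) X) = 0 := by
    have h := congrArg (norK D X) x0
    rw [F.nsmul, F.nsub, F.nsmul, F.nsmul, F.nu1, F.nu2] at h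
    simp only [smul_zero, sub_zero] at h
    exact (smul_eq_zero.1 h).resolve_left hδ
  have nx1 : norK D X (dv (D.d 1) X) = 0 := by
    have h := congrArg (norK D X) x1
    rw [F.nsmul, F.nadd, F.nsmul, F.nsmul, F.nu1, F.nu2] at h
    simp only [smul_zero, add_zero] at h
    exact (smul_eq_zero.1 h).resolve_left hδ
  have hv : dv F.e1 F.u2 - dv F.e2 F.u1 = (F.e1 (F.b 0) - F.e2 (F.a 0)) • dv (D.d 0) X
      + (F.e1 (F.b 1) - F.e2 (F.a 1)) • dv (D.d 1) X := by
    funext k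
    simp only [Pi.sub_apply, Pi.add_apply, Pi.smul_apply, smul_eq_mul, dv, u1, u2]
    have h := D.comm (X k)
    simp only [e1_ap, e2_ap, map_add, Derivation.leibniz, smul_eq_mul]
    linear_combination (F.a 0 * F.b 1 - F.a 1 * F.b 0) * h
  have hsym : norK D X (dv F.e1 F.u2) = norK D X (dv F.e2 F.u1) := by
    have h := congrArg (norK D X) hv
    rw [F.nsub, F.nadd, F.nsmul, F.nsmul, nx0, nx1] at h
    simp only [smul_zero, add_zero] at h
    exact sub_eq_zero.1 h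
  rw [g12, g21] at hsym
  have sm := congrFun hsym m
  have sn := congrFun hsym n
  simp only [Pi.add_apply, Pi.smul_apply, smul_eq_mul] at sm sn
  rw [g11, g22, g12]
  simp only [Pi.add_apply, Pi.smul_apply, smul_eq_mul]
  have key : ((F.a 0 * P0 m + F.a 1 * P1 m) - (F.b 0 * Q0 m + F.b 1 * Q1 m))
        * (F.a 0 * Q0 n + F.a 1 * Q1 n)
      - ((F.a 0 * P0 n + F.a 1 * P1 n) - (F.b 0 * Q0 n + F.b 1 * Q1 n))
        * (F.a 0 * Q0 m + F.a 1 * Q1 m) = 0 := by
    linear_combination (F.a 0 * F.b 1 - F.a 1 * F.b 0) * hfl'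
      + (F.a 0 * P0 m + F.a 1 * P1 m) * sn - (F.a 0 * P0 n + F.a 1 * P1 n) * sm
  linear_combination key

end OFr

end Pool.H60.PE
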