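import Pool.Agent.H60.PE.CRic

/-!
# The principal frame, or a frame with an isotropic second fundamental form

(Adapted from `Pool.Agent.H99.N2.GRot`.)
-/

namespace Pool.H60.PE

open Matrix

variable {K : Type} [Field K]

theorem half_angle [CharZero K] (D : DC K) (x y : K) (h : x ^ 2 + y ^ 2 ≠ 0) :
    ∃ C S : K, C ^ 2 + S ^ 2 = 1 ∧ (C ^ 2 - S ^ 2) * y = 2 * C * S * x := by
  obtain ⟨z, hz⟩ := D.root (x ^ 2 + y ^ 2)
  have hz0 : z ≠ 0 := by
    intro h0
    apply h
    rw [hz, h0]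
    ring
  have h2 : (2 : K) ≠ 0 := two_ne_zero
  have hcs : (x / z) ^ 2 + (y / z) ^ 2 = 1 := by
    field_simp
    exact hz
  have hB : 4 * ((1 + x / z) / 2) * ((1 - x / z) / 2) = (y / z) ^ 2 := by
    linear_combination (-1 : K) * hcs
  obtain ⟨C, hC⟩ := D.root ((1 + x / z) / 2)
  obtain ⟨S, hS⟩ := D.root ((1 - x / z) / 2)
  have h5 : (2 * C * S) ^ 2 = (y / z) ^ 2 := by
    rw [← hB, hC, hS]
    ring
  have h6 : C ^ 2 + S ^ 2 = 1 := by
    rw [← hC, ← hS]
    ring
  have h7 : C ^ 2 - S ^ 2 = x / z := by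
    rw [← hC, ← hS]
    ring
  rcases sq_eq_sq_iff_eq_or_eq_neg.1 h5 with h8 | h8
  · refine ⟨C, S, h6, ?_⟩
    rw [h7, h8]
    ring
  · refine ⟨C, -S, by rw [neg_sq]; exact h6, ?_⟩
    rw [neg_sq, h7]
    linear_combination x * h8

section rotation

variable {D : DC K} {X : Fin 4 → K}

private theorem nor_add (F : OFr D X) (v w : Fin 4 → K) :
    norK D X (v + w) = norK D X v + norK D X w := by
  rw [F.nor_eq, F.nor_eq, F.nor_eq, dotProduct_add, dotProduct_add]
  module

private theorem nor_smul (F : OFr D X) (f : K) (v : Fin 4 → K) :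
    norK D X (f • v) = f • norK D X v := by
  rw [F.nor_eq, F.nor_eq, dotProduct_smul, dotProduct_smul, smul_eq_mul, smul_eq_mul]
  module

private theorem u11 (F : OFr D X) : F.u1 ⬝ᵥ F.u1 = 1 := by
  rw [F.u1_eq]
  exact F.o11

private theorem u12 (F : OFr D X) : F.u1 ⬝ᵥ F.u2 = 0 := by
  rw [F.u1_eq, F.u2_eq]
  exact F.o12

private theorem u22 (F : OFr D X) : F.u2 ⬝ᵥ F.u2 = 1 := by
  rw [F.u2_eq]
  exact F.o22

private theorem nor_u1 (F : OFr D X) : norK D X F.u1 = 0 := by
  rw [F.nor_eq, u11, dotProduct_comm, u12]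
  module

private theorem nor_u2 (F : OFr D X) : norK D X F.u2 = 0 := by
  rw [F.nor_eq, u12, u22]
  module

private theorem dv_add' (E : Derivation ℤ K K) (v w : Fin 4 → K) :
    dv E (v + w) = dv E v + dv E w := by
  funext k
  simp [dv]

private theorem dv_smul' (E : Derivation ℤ K K) (f : K) (v : Fin 4 → K) :
    dv E (f • v) = E f • v + f • dv E v := by
  funext k
  simp only [dv, Pi.smul_apply, Pi.add_apply, smul_eq_mul, Derivation.leibniz]
  ring

private theorem e1_apply (F : OFr D X) (f : K) :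
    F.e1 f = F.a 0 * D.d 0 f + F.a 1 * D.d 1 f := by
  simp [OFr.e1, Fin.sum_univ_two]

private theorem e2_apply (F : OFr D X) (f : K) :
    F.e2 f = F.b 0 * D.d 0 f + F.b 1 * D.d 1 f := by
  simp [OFr.e2, Fin.sum_univ_two]

private theorem nor_coord (h : gdet D X ≠ 0) (k : Fin 2) :
    norK D X (dv (D.d k) X) = 0 := by
  have hs : gm D X 1 0 = gm D X 0 1 := dotProduct_comm _ _
  have hg : gm D X 0 0 * gm D X 1 1 - gm D X 0 1 ^ 2 ≠ 0 := h
  funext n
  have e : ∀ i, dv (D.d i) X ⬝ᵥ dv (D.d k) X = gm D X i k := fun i => rfl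
  unfold norK
  simp only [e, Fin.sum_univ_two, gi, gdet, Pi.sub_apply, Pi.add_apply, Pi.smul_apply,
    smul_eq_mul, Pi.zero_apply, Matrix.of_apply, Matrix.cons_val', Matrix.cons_val_zero,
    Matrix.cons_val_one, Matrix.cons_val_fin_one]
  have hi := mul_inv_cancel₀ hg
  fin_cases k
  · simp only [Fin.zero_eta, Fin.isValue, hs]
    linear_combination (-(dv (D.d 0) X n)) * hi
  · simp only [Fin.mk_one, Fin.isValue]
    linear_combination (-(dv (D.d 1) X n)) * hi

theorem crot_symm (F : OFr D X) (h : gdet D X ≠ 0) :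
    norK D X (dv F.e2 F.u1) = norK D X (dv F.e1 F.u2) := by
  have key : dv F.e1 F.u2 = dv F.e2 F.u1 + ((F.e1 (F.b 0) - F.e2 (F.a 0)) • dv (D.d 0) X
      + (F.e1 (F.b 1) - F.e2 (F.a 1)) • dv (D.d 1) X) := by
    funext k
    simp only [OFr.u1, OFr.u2, dv, Pi.add_apply, Pi.smul_apply, smul_eq_mul, e1_apply, e2_apply,
      map_add, Derivation.leibniz]
    have hc := D.comm (X k)
    linear_combination (F.a 0 * F.b 1 - F.a 1 * F.b 0) * hc
  rw [key, nor_add F, nor_add F, nor_smul F, nor_smul F, nor_coord h, nor_coord h]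
  module

/-- the rotated frame -/
private def rot (F : OFr D X) (C S : K) (h : C ^ 2 + S ^ 2 = 1) : OFr D X where
  a := fun i => C * F.a i + S * F.b i
  b := fun i => -S * F.a i + C * F.b i
  o11 := by
    have e : (∑ i, (C * F.a i + S * F.b i) • dv (D.d i) X) = C • F.u1 + S • F.u2 := by
      rw [F.u1_eq, F.u2_eq]
      simp only [Fin.sum_univ_two]
      module
    rw [e]
    simp only [dotProduct_add, add_dotProduct, dotProduct_smul, smul_dotProduct, smul_eq_mul,
      u11, u12, u22, dotProduct_comm F.u2 F.u1]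
    linear_combination h
  o12 := by
    have e : (∑ i, (C * F.a i + S * F.b i) • dv (D.d i) X) = C • F.u1 + S • F.u2 := by
      rw [F.u1_eq, F.u2_eq]
      simp only [Fin.sum_univ_two]
      module
    have e' : (∑ i, (-S * F.a i + C * F.b i) • dv (D.d i) X) = (-S) • F.u1 + C • F.u2 := by
      rw [F.u1_eq, F.u2_eq]
      simp only [Fin.sum_univ_two]
      module
    rw [e, e']
    simp only [dotProduct_add, add_dotProduct, dotProduct_smul, smul_dotProduct, smul_eq_mul,
      u11, u12, u22, dotProduct_comm F.u2 F.u1]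
    ring
  o22 := by
    have e' : (∑ i, (-S * F.a i + C * F.b i) • dv (D.d i) X) = (-S) • F.u1 + C • F.u2 := by
      rw [F.u1_eq, F.u2_eq]
      simp only [Fin.sum_univ_two]
      module
    rw [e']
    simp only [dotProduct_add, add_dotProduct, dotProduct_smul, smul_dotProduct, smul_eq_mul,
      u11, u12, u22, dotProduct_comm F.u2 F.u1]
    linear_combination h

private theorem rot_e1 (F : OFr D X) (C S : K) (h : C ^ 2 + S ^ 2 = 1) (v : Fin 4 → K) :
    dv (rot F C S h).e1 v = C • dv F.e1 v + S • dv F.e2 v := by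
  funext k
  simp only [dv, Pi.add_apply, Pi.smul_apply, smul_eq_mul, e1_apply, e2_apply, rot]
  ring

private theorem rot_u2 (F : OFr D X) (C S : K) (h : C ^ 2 + S ^ 2 = 1) :
    (rot F C S h).u2 = (-S) • F.u1 + C • F.u2 := by
  rw [OFr.u2_eq, F.u1_eq, F.u2_eq]
  simp only [Fin.sum_univ_two, rot]
  module

private theorem rot_nor (F : OFr D X) (hg : gdet D X ≠ 0) (C S : K) (h : C ^ 2 + S ^ 2 = 1) :
    norK D X (dv (rot F C S h).e1 (rot F C S h).u2)
      = (C ^ 2 - S ^ 2) • norK D X (dv F.e1 F.u2)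
        - (C * S) • (norK D X (dv F.e1 F.u1) - norK D X (dv F.e2 F.u2)) := by
  rw [rot_e1, rot_u2]
  simp only [dv_add', dv_smul', nor_add F, nor_smul F, nor_u1, nor_u2, crot_symm F hg]
  module

end rotation

theorem exists_principal [CharZero K] (D : DC K) (X : Fin 4 → K) (h : gdet D X ≠ 0)
    (flat : ∀ k : Fin 4,
      norK D X (dv (D.d 0) (norK D X (dv (D.d 1) (norK D X (Pi.single k 1)))))
        = norK D X (dv (D.d 1) (norK D X (dv (D.d 0) (norK D X (Pi.single k 1)))))) :
    (∃ F : OFr D X, norK D X (dv F.e1 F.u2) = 0) ∨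
    (∃ (F : OFr D X) (i : K), i ^ 2 = -1 ∧
      norK D X (dv F.e1 F.u1) - norK D X (dv F.e2 F.u2) = (2 * i) • norK D X (dv F.e1 F.u2)) := by
  obtain ⟨F⟩ := exists_ofr D X h
  by_cases hV : norK D X (dv F.e1 F.u2) = 0
  · exact Or.inl ⟨F, hV⟩
  · obtain ⟨m, hm⟩ := Function.ne_iff.1 hV
    have hm' : norK D X (dv F.e1 F.u2) m ≠ 0 := hm
    have h2 : (2 : K) ≠ 0 := two_ne_zero
    by_cases hxy : (norK D X (dv F.e1 F.u1) m - norK D X (dv F.e2 F.u2) m) ^ 2
        + (2 * norK D X (dv F.e1 F.u2) m) ^ 2 = 0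
    · right
      have hy : 2 * norK D X (dv F.e1 F.u2) m ≠ 0 := mul_ne_zero h2 hm'
      refine ⟨F, (norK D X (dv F.e1 F.u1) m - norK D X (dv F.e2 F.u2) m)
        / (2 * norK D X (dv F.e1 F.u2) m), ?_, ?_⟩
      · rw [div_pow, div_eq_iff (pow_ne_zero 2 hy)]
        linear_combination hxy
      · funext n
        have hr := F.ricci flat m n
        simp only [Pi.sub_apply, Pi.smul_apply, smul_eq_mul]
        field_simp
        linear_combination -hr
    · left
      obtain ⟨C, S, hCS, hrot⟩ := half_angle D _ _ hxy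
      refine ⟨rot F C S hCS, ?_⟩
      rw [rot_nor F h]
      funext n
      have hr := F.ricci flat m n
      simp only [Pi.sub_apply, Pi.smul_apply, smul_eq_mul, Pi.zero_apply]
      apply (mul_eq_zero.1 ?_).resolve_left (mul_ne_zero h2 hm')
      linear_combination (norK D X (dv F.e1 F.u2) n) * hrot + 2 * (C * S) * hr

end Pool.H60.PE
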