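import Pool.Agent.H99.N2.Defs

/-!
# Surfaces in the pseudo-Euclidean 4-spaces: the definitions used in the statement

`R^4` carries the scalar product of index `s`.  A parametrised surface is a smooth map `X` from an
open subset `U` of the plane to `R^4` whose induced metric is nondegenerate (definite or indefinite)
at each point of `U`.  `E2`, `E4` (the plane and `R^4`) and the partial derivative `pd` are those of
`Pool.Agent.H99.N2.Defs`.
-/

namespace Pool.H60.PE

open scoped ContDiff
open Pool.Agent.H99.N2 (E2 E4 pd)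

/-- The sign of the square of the `k`-th coordinate: `-1` for the first `s` coordinates. -/
def sgn (s : ℕ) (k : Fin 4) : ℝ := if (k : ℕ) < s then -1 else 1

/-- The scalar product of index `s` on `R^4`,
`⟨v, w⟩ = - v_1 w_1 - ... - v_s w_s + v_{s+1} w_{s+1} + ... + v_4 w_4`. -/
noncomputable def ip (s : ℕ) (v w : E4) : ℝ := ∑ k, sgn s k * (v k * w k)

/-- The matrix `g_ij = <X_i, X_j>` of the induced metric in the coordinates of the plane. -/
noncomputable def metric (s : ℕ) (X : E2 → E4) (x : E2) : Matrix (Fin 2) (Fin 2) ℝ :=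
  Matrix.of fun i j => ip s (pd i X x) (pd j X x)

/-- The square root of `|det g|`. -/
noncomputable def vol (s : ℕ) (X : E2 → E4) (x : E2) : ℝ :=
  Real.sqrt |(metric s X x).det|

/-- The Laplace operator `Δ = - div grad` of the induced metric,
`Δ f = -(1/√|g|) Σ_ij ∂_i (√|g| g^ij ∂_j f)`, acting on vector valued functions. -/
noncomputable def lap (s : ℕ) (X : E2 → E4) {F : Type} [NormedAddCommGroup F] [NormedSpace ℝ F]
    (f : E2 → F) (x : E2) : F :=
  -((vol s X x)⁻¹ • ∑ i, pd i (fun y => ∑ j,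
    (vol s X y * (metric s X y)⁻¹ i j) • pd j f y) x)

/-- The component of a vector orthogonal to the surface,
`v - Σ_ij g^ij <X_i, v> X_j`. -/
noncomputable def normalPart (s : ℕ) (X : E2 → E4) (x : E2) (v : E4) : E4 :=
  v - ∑ i, ∑ j, ((metric s X x)⁻¹ i j * ip s (pd i X x) v) • pd j X x

/-- The mean curvature vector `H = (1/2) Σ_ij g^ij h_ij`, where `h_ij` is the normal part of the
second derivative `X_ij` (second fundamental form). -/
noncomputable def meanCurv (s : ℕ) (X : E2 → E4) (x : E2) : E4 :=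
  (1 / 2 : ℝ) • ∑ i, ∑ j, (metric s X x)⁻¹ i j • normalPart s X x (pd i (pd j X) x)

/-- The normal connection: covariant derivative of a normal field in the direction `i`. -/
noncomputable def nablaPerp (s : ℕ) (X : E2 → E4) (i : Fin 2) (n : E2 → E4) (x : E2) : E4 :=
  normalPart s X x (pd i n x)

/-- `X : U → E^4_s` is a smooth immersion with nondegenerate induced metric. -/
def IsSurface (s : ℕ) (X : E2 → E4) (U : Set E2) : Prop :=
  ContDiffOn ℝ ∞ X U ∧ ∀ x ∈ U, (metric s X x).det ≠ 0

/-- The normal bundle is flat: the covariant derivatives of the normal connection in the two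
coordinate directions commute on each smooth normal field. -/
def FlatNormalBundle (s : ℕ) (X : E2 → E4) (U : Set E2) : Prop :=
  ∀ n : E2 → E4, ContDiffOn ℝ ∞ n U → (∀ x ∈ U, ∀ i, ip s (pd i X x) (n x) = 0) →
    ∀ x ∈ U, nablaPerp s X 0 (nablaPerp s X 1 n) x = nablaPerp s X 1 (nablaPerp s X 0 n) x

/-- `X` is of null 2-type: `X = x0 + X1 + X2` with `x0` constant, `X1`, `X2` non-constant,
`Δ X1 = 0`, `Δ X2 = lam X2`, `lam ≠ 0`. -/
def IsNullTwoType (s : ℕ) (X : E2 → E4) (U : Set E2) : Prop :=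
  ∃ (x0 : E4) (X1 X2 : E2 → E4) (lam : ℝ), lam ≠ 0 ∧ ContDiffOn ℝ ∞ X1 U ∧
    ContDiffOn ℝ ∞ X2 U ∧ (∀ x ∈ U, X x = x0 + X1 x + X2 x) ∧
    (∀ x ∈ U, lap s X X1 x = 0) ∧ (∀ x ∈ U, lap s X X2 x = lam • X2 x) ∧
    (¬ ∃ v, ∀ x ∈ U, X1 x = v) ∧ (¬ ∃ v, ∀ x ∈ U, X2 x = v)

end Pool.H60.PE
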