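import Pool.Agent.H60.PE.PBel
import Pool.Agent.H60.PE.CGeo

/-!
# Surfaces with flat normal bundle and `Δ H = c H` in the pseudo-Euclidean 4-spaces

The square `<H, H>` of the mean curvature vector is constant.
-/

namespace Pool.H60.PE

open scoped ContDiff
open Matrix
open Pool.Agent.H99.N2 (E2 E4 pd contDiffOn_pd contDiffOn_comp)

theorem main (s : ℕ) {U : Set E2} (hU : IsOpen U) (hc : IsPreconnected U) {X : E2 → E4}
    (hX : IsSurface s X U) (hflat : FlatNormalBundle s X U)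
    (hH : ∃ c : ℝ, c ≠ 0 ∧ ∀ x ∈ U, lap s X (meanCurv s X) x = c • meanCurv s X x) :
    ∃ C : ℝ, ∀ x ∈ U, ip s (meanCurv s X x) (meanCurv s X x) = C := by
  obtain ⟨c, hc0, hH⟩ := hH
  have hsm : ContDiffOn ℝ ∞ (meanCurv s X) U := contDiffOn_meanCurv hU hX
  set W : E2 → ℝ := fun x => ip s (meanCurv s X x) (meanCurv s X x) with hWdef
  have hW : ContDiffOn ℝ ∞ W U := contDiffOn_ip s hsm hsm
  have key : ∀ i : Fin 2, ∀ x ∈ U, pd i W x = 0 := by
    intro i
    by_contra hcon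
    push Not at hcon
    obtain ⟨x0, hx0, hne0⟩ := hcon
    have hpd : ContDiffOn ℝ ∞ (pd i W) U := contDiffOn_pd hU hW i
    set Om : Set E2 := U ∩ pd i W ⁻¹' {0}ᶜ with hOmdef
    have hO : IsOpen Om := hpd.continuousOn.isOpen_inter_preimage hU isOpen_compl_singleton
    have hOU : Om ⊆ U := Set.inter_subset_left
    have hne : Om.Nonempty := ⟨x0, hx0, hne0⟩
    obtain ⟨K, hF, hK, ⟨B⟩⟩ := exists_cbr Om hO hne
    have hX' : IsSurface s X Om := ⟨hX.1.mono hOU, fun x hx => hX.2 x (hOU hx)⟩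
    have hflat' : ∀ v : E4, ∀ x ∈ Om,
        nablaPerp s X 0 (nablaPerp s X 1 (fun y => normalPart s X y v)) x
          = nablaPerp s X 1 (nablaPerp s X 0 (fun y => normalPart s X y v)) x := fun v x hx =>
      hflat (fun y => normalPart s X y v) (contDiffOn_normalPart hU hX contDiffOn_const)
        (fun y hy k => ip_normalPart s X (hX.2 y hy) v k) x (hOU hx)
    obtain ⟨I, hD, hIX⟩ := exists_imm B hO hne hX' hflat' hc0 fun x hx => hH x (hOU hx)
    have h1 : B.φ (pd i W) ≠ 0 := B.ne _ (hpd.mono hOU) fun x hx => hx.2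
    apply h1
    rw [B.der i W (hW.mono hOU)]
    have h2 : B.φ W = B.Φ s (meanCurv s X) ⬝ᵥ B.Φ s (meanCurv s X) :=
      B.φ_ip s (hsm.mono hOU) (hsm.mono hOU)
    have h3 := Φ_meanCurv B hO hX'
    have h4 := geo_main I i
    rw [hD, hIX, ← h3, smul_dotProduct, dotProduct_smul, smul_eq_mul, smul_eq_mul, ← h2,
      ← mul_assoc] at h4
    have h5 : ((2 : K) * 2) = ((4 : ℕ) : K) := by norm_num
    rw [h5, ← nsmul_eq_mul, map_nsmul, nsmul_eq_mul] at h4
    rcases mul_eq_zero.1 h4 with h6 | h6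
    · exact absurd h6 (by norm_num)
    · exact h6
  have hf : Set.EqOn (fderiv ℝ W) 0 U := by
    intro x hx
    have hb : ∀ j : Fin 2, fderiv ℝ W x (EuclideanSpace.single j 1) = 0 := fun j => key j x hx
    apply ContinuousLinearMap.coe_injective
    refine (EuclideanSpace.basisFun (Fin 2) ℝ).toBasis.ext fun j => ?_
    simpa using hb j
  obtain ⟨a, ha⟩ := hU.exists_is_const_of_fderiv_eq_zero hc
    (hW.differentiableOn (by simp)) hf
  exact ⟨a, fun x hx => ha x hx⟩

theorem main_null (s : ℕ) {U : Set E2} (hU : IsOpen U) (hc : IsPreconnected U) {X : E2 → E4}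
    (hX : IsSurface s X U) (hflat : FlatNormalBundle s X U) (h2 : IsNullTwoType s X U) :
    ∃ C : ℝ, ∀ x ∈ U, ip s (meanCurv s X x) (meanCurv s X x) = C :=
  main s hU hc hX hflat (lapH_of_null hU hX h2)

end Pool.H60.PE
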