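import Pool.Agent.H60.PE.PNor

/-!
# From a surface in E^4_s to a surface over the differential field

(Adapted from `Pool.Agent.H99.N2.AImm`.)
-/

set_option linter.unusedSectionVars false

namespace Pool.H60.PE

open scoped ContDiff
open Matrix
open Pool.Agent.H99.N2 (E2 E4 pd contDiffOn_pd contDiffOn_comp)

variable {s : ℕ} {Om : Set E2} {K : Type} [Field K] [CharZero K]

theorem φ_metric (B : CBr Om K) (hO : IsOpen Om) {X : E2 → E4} (hX : IsSurface s X Om)
    (i j : Fin 2) : B.φ (fun x => metric s X x i j) = gm B.D (B.Φ s X) i j := by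
  have h := B.φ_ip s (contDiffOn_pd hO hX.1 i) (contDiffOn_pd hO hX.1 j)
  rw [B.Φ_pd s hO hX.1 i, B.Φ_pd s hO hX.1 j] at h
  exact h

theorem φ_det (B : CBr Om K) (hO : IsOpen Om) {X : E2 → E4} (hX : IsSurface s X Om) :
    B.φ (fun x => (metric s X x).det) = gdet B.D (B.Φ s X) := by
  have h : (fun x => (metric s X x).det)
      = fun x => metric s X x 0 0 * metric s X x 1 1 - metric s X x 0 1 * metric s X x 0 1 := by
    funext x
    rw [metric_det]
  have h00 := contDiffOn_metric hO hX 0 0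
  have h11 := contDiffOn_metric hO hX 1 1
  have h01 := contDiffOn_metric hO hX 0 1
  rw [h, B.sub (h00.mul h11) (h01.mul h01), B.mul _ _ h00 h11, B.mul _ _ h01 h01,
    φ_metric B hO hX, φ_metric B hO hX, φ_metric B hO hX, gdet, sq]

theorem φ_metric_inv (B : CBr Om K) (hO : IsOpen Om) {X : E2 → E4} (hX : IsSurface s X Om)
    (i j : Fin 2) : B.φ (fun x => (metric s X x)⁻¹ i j) = gi B.D (B.Φ s X) i j := by
  have h00 := contDiffOn_metric hO hX 0 0
  have h11 := contDiffOn_metric hO hX 1 1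
  have h01 := contDiffOn_metric hO hX 0 1
  have hd := contDiffOn_det hO hX
  have hdi : ContDiffOn ℝ ∞ (fun x => ((metric s X x).det)⁻¹) Om := hd.inv hX.2
  have key : ∀ f : E2 → ℝ, ContDiffOn ℝ ∞ f Om →
      (∀ x ∈ Om, (metric s X x)⁻¹ i j = f x * ((metric s X x).det)⁻¹) →
      B.φ (fun x => (metric s X x)⁻¹ i j) = B.φ f / gdet B.D (B.Φ s X) := by
    intro f hf h
    rw [B.congr _ (fun x => f x * ((metric s X x).det)⁻¹) (contDiffOn_metric_inv hO hX i j)
      (hf.mul hdi) h, B.mul _ _ hf hdi, B.inv hd hX.2, φ_det B hO hX, div_eq_mul_inv]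
  fin_cases i <;> fin_cases j
  · rw [key (fun x => metric s X x 1 1) h11 (fun x hx => by
      rw [metric_inv, div_eq_mul_inv]; rfl), φ_metric B hO hX]
    rfl
  · rw [key (fun x => -metric s X x 0 1) h01.neg (fun x hx => by
      rw [metric_inv, div_eq_mul_inv]; rfl), B.neg h01, φ_metric B hO hX]
    rfl
  · rw [key (fun x => -metric s X x 0 1) h01.neg (fun x hx => by
      rw [metric_inv, div_eq_mul_inv]; rfl), B.neg h01, φ_metric B hO hX]
    rfl
  · rw [key (fun x => metric s X x 0 0) h00 (fun x hx => by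
      rw [metric_inv, div_eq_mul_inv]; rfl), φ_metric B hO hX]
    rfl

theorem Φ_normalPart (B : CBr Om K) (hO : IsOpen Om) {X : E2 → E4} (hX : IsSurface s X Om)
    {v : E2 → E4} (hv : ContDiffOn ℝ ∞ v Om) :
    B.Φ s (fun x => normalPart s X x (v x)) = norK B.D (B.Φ s X) (B.Φ s v) := by
  have hpd : ∀ i : Fin 2, ContDiffOn ℝ ∞ (fun x => pd i X x) Om := fun i =>
    contDiffOn_pd hO hX.1 i
  have hin : ∀ i : Fin 2, ContDiffOn ℝ ∞ (fun x => ip s (pd i X x) (v x)) Om :=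
    fun i => contDiffOn_ip s (hpd i) hv
  have hco : ∀ i j : Fin 2,
      ContDiffOn ℝ ∞ (fun x => (metric s X x)⁻¹ i j * ip s (pd i X x) (v x)) Om :=
    fun i j => (contDiffOn_metric_inv hO hX i j).mul (hin i)
  have hte : ∀ i j : Fin 2, ContDiffOn ℝ ∞ (fun x =>
      ((metric s X x)⁻¹ i j * ip s (pd i X x) (v x)) • pd j X x) Om :=
    fun i j => (hco i j).smul (hpd j)
  have hsj : ∀ i : Fin 2, ContDiffOn ℝ ∞ (fun x =>
      ∑ j, ((metric s X x)⁻¹ i j * ip s (pd i X x) (v x)) • pd j X x) Om :=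
    fun i => ContDiffOn.sum fun j _ => hte i j
  have hsum : ContDiffOn ℝ ∞ (fun x =>
      ∑ i, ∑ j, ((metric s X x)⁻¹ i j * ip s (pd i X x) (v x)) • pd j X x) Om :=
    ContDiffOn.sum fun i _ => hsj i
  unfold normalPart
  rw [B.Φ_sub s hv hsum, norK, B.Φ_sum s Finset.univ _ (fun i _ => hsj i)]
  congr 1
  refine Finset.sum_congr rfl fun i _ => ?_
  rw [B.Φ_sum s Finset.univ _ (fun j _ => hte i j)]
  refine Finset.sum_congr rfl fun j _ => ?_
  rw [B.Φ_smul s (hco i j) (hpd j), B.mul _ _ (contDiffOn_metric_inv hO hX i j) (hin i),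
    φ_metric_inv B hO hX, B.φ_ip s (hpd i) hv]
  have hi := B.Φ_pd s hO hX.1 i
  have hj := B.Φ_pd s hO hX.1 j
  rw [← hi, ← hj]

theorem Φ_meanCurv (B : CBr Om K) (hO : IsOpen Om) {X : E2 → E4} (hX : IsSurface s X Om) :
    (2 : K) • B.Φ s (meanCurv s X) = trK B.D (B.Φ s X) := by
  have hpd : ∀ i : Fin 2, ContDiffOn ℝ ∞ (pd i X) Om := fun i =>
    contDiffOn_pd hO hX.1 i
  have hpp : ∀ i j : Fin 2, ContDiffOn ℝ ∞ (pd i (pd j X)) Om := fun i j =>
    contDiffOn_pd hO (hpd j) i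
  have hnp : ∀ i j : Fin 2,
      ContDiffOn ℝ ∞ (fun x => normalPart s X x (pd i (pd j X) x)) Om :=
    fun i j => contDiffOn_normalPart hO hX (hpp i j)
  have hte : ∀ i j : Fin 2, ContDiffOn ℝ ∞ (fun x =>
      (metric s X x)⁻¹ i j • normalPart s X x (pd i (pd j X) x)) Om :=
    fun i j => (contDiffOn_metric_inv hO hX i j).smul (hnp i j)
  have hsj : ∀ i : Fin 2, ContDiffOn ℝ ∞ (fun x =>
      ∑ j, (metric s X x)⁻¹ i j • normalPart s X x (pd i (pd j X) x)) Om :=
    fun i => ContDiffOn.sum fun j _ => hte i j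
  have hsum : ContDiffOn ℝ ∞ (fun x =>
      ∑ i, ∑ j, (metric s X x)⁻¹ i j • normalPart s X x (pd i (pd j X) x)) Om :=
    ContDiffOn.sum fun i _ => hsj i
  have h2 : (2 : K) • B.Φ s (meanCurv s X) = B.Φ s (fun x => (2 : ℝ) • meanCurv s X x) := by
    rw [B.Φ_smul s (contDiffOn_const (c := (2 : ℝ))) (contDiffOn_meanCurv hO hX), B.two]
  have h3 : B.Φ s (fun x => (2 : ℝ) • meanCurv s X x) = B.Φ s (fun x =>
      ∑ i, ∑ j, (metric s X x)⁻¹ i j • normalPart s X x (pd i (pd j X) x)) := by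
    congr 1
    funext x
    rw [meanCurv, smul_smul]
    norm_num
  rw [h2, h3, B.Φ_sum s Finset.univ _ (fun i _ => hsj i), trK]
  refine Finset.sum_congr rfl fun i _ => ?_
  rw [B.Φ_sum s Finset.univ _ (fun j _ => hte i j)]
  refine Finset.sum_congr rfl fun j _ => ?_
  rw [B.Φ_smul s (contDiffOn_metric_inv hO hX i j) (hnp i j), φ_metric_inv B hO hX,
    Φ_normalPart B hO hX (hpp i j), B.Φ_pd s hO (hpd j) i, B.Φ_pd s hO hX.1 j]

/-- the volume density as an element of the field -/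
noncomputable def delK (B : CBr Om K) (s : ℕ) (X : E2 → E4) : K := B.φ (vol s X)

theorem delK_pow (B : CBr Om K) (hO : IsOpen Om) {X : E2 → E4} (hX : IsSurface s X Om) :
    delK B s X ^ 4 = gdet B.D (B.Φ s X) ^ 2 := by
  have hs := contDiffOn_vol hO hX
  have hd := contDiffOn_det hO hX
  have h1 : delK B s X ^ 4
      = B.φ (fun x => (vol s X x * vol s X x) * (vol s X x * vol s X x)) := by
    rw [B.mul _ _ (hs.mul hs) (hs.mul hs), B.mul _ _ hs hs, delK]
    ring
  have h2 : gdet B.D (B.Φ s X) ^ 2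
      = B.φ (fun x => (metric s X x).det * (metric s X x).det) := by
    rw [B.mul _ _ hd hd, φ_det B hO hX, sq]
  rw [h1, h2]
  refine B.congr _ _ ((hs.mul hs).mul (hs.mul hs)) (hd.mul hd) (fun x hx => ?_)
  have h3 : vol s X x * vol s X x = |(metric s X x).det| :=
    Real.mul_self_sqrt (abs_nonneg _)
  rw [h3, abs_mul_abs_self]

theorem delK_ne (B : CBr Om K) (hO : IsOpen Om) {X : E2 → E4} (hX : IsSurface s X Om) :
    delK B s X ≠ 0 :=
  B.ne _ (contDiffOn_vol hO hX) (vol_ne hX)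

private theorem pimm_in (hO : IsOpen Om) {X : E2 → E4} (hX : IsSurface s X Om) {f : E2 → E4}
    (hf : ContDiffOn ℝ ∞ f Om) (i : Fin 2) : ContDiffOn ℝ ∞ (fun y => ∑ j,
    (vol s X y * (metric s X y)⁻¹ i j) • pd j f y) Om :=
  ContDiffOn.sum fun j _ => ((contDiffOn_vol hO hX).mul
    (contDiffOn_metric_inv hO hX i j)).smul (contDiffOn_pd hO hf j)

private theorem pimm_out (hO : IsOpen Om) {X : E2 → E4} (hX : IsSurface s X Om) {f : E2 → E4}
    (hf : ContDiffOn ℝ ∞ f Om) : ContDiffOn ℝ ∞ (fun x => ∑ i, pd i (fun y => ∑ j,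
    (vol s X y * (metric s X y)⁻¹ i j) • pd j f y) x) Om :=
  ContDiffOn.sum fun i _ => contDiffOn_pd hO (pimm_in hO hX hf i) i

private theorem pimm_vol_inv (hO : IsOpen Om) {X : E2 → E4} (hX : IsSurface s X Om) :
    ContDiffOn ℝ ∞ (fun x => (vol s X x)⁻¹) Om :=
  (contDiffOn_vol hO hX).inv (vol_ne hX)

theorem contDiffOn_lap (hO : IsOpen Om) {X : E2 → E4} (hX : IsSurface s X Om) {f : E2 → E4}
    (hf : ContDiffOn ℝ ∞ f Om) : ContDiffOn ℝ ∞ (lap s X f) Om :=
  ((pimm_vol_inv hO hX).smul (pimm_out hO hX hf)).neg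

theorem Φ_lap (B : CBr Om K) (hO : IsOpen Om) {X : E2 → E4} (hX : IsSurface s X Om)
    {f : E2 → E4} (hf : ContDiffOn ℝ ∞ f Om) (k : Fin 4) :
    B.Φ s (lap s X f) k = lapK B.D (B.Φ s X) (delK B s X) (B.Φ s f k) := by
  have hneg : B.Φ s (lap s X f) = -(B.φ (fun x => (vol s X x)⁻¹) •
      B.Φ s (fun x => ∑ i, pd i (fun y => ∑ j,
        (vol s X y * (metric s X y)⁻¹ i j) • pd j f y) x)) := by
    rw [← B.Φ_smul s (pimm_vol_inv hO hX) (pimm_out hO hX hf)]
    exact B.Φ_neg s ((pimm_vol_inv hO hX).smul (pimm_out hO hX hf))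
  rw [hneg, B.inv (contDiffOn_vol hO hX) (vol_ne hX),
    B.Φ_sum s Finset.univ _ (fun i _ => contDiffOn_pd hO (pimm_in hO hX hf i) i)]
  simp only [lapK, Pi.neg_apply, Pi.smul_apply, Finset.sum_apply, smul_eq_mul]
  rw [show B.φ (vol s X) = delK B s X from rfl]
  congr 2
  refine Finset.sum_congr rfl fun i _ => ?_
  rw [B.Φ_pd s hO (pimm_in hO hX hf i) i]
  have hte : ∀ j : Fin 2, ContDiffOn ℝ ∞ (fun y =>
      (vol s X y * (metric s X y)⁻¹ i j) • pd j f y) Om := fun j =>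
    ((contDiffOn_vol hO hX).mul (contDiffOn_metric_inv hO hX i j)).smul
      (contDiffOn_pd hO hf j)
  rw [B.Φ_sum s Finset.univ _ (fun j _ => hte j)]
  show B.D.d i ((∑ j, B.Φ s _) k) = _
  rw [Finset.sum_apply]
  congr 1
  refine Finset.sum_congr rfl fun j _ => ?_
  rw [B.Φ_smul s ((contDiffOn_vol hO hX).mul (contDiffOn_metric_inv hO hX i j))
    (contDiffOn_pd hO hf j), B.mul _ _ (contDiffOn_vol hO hX)
    (contDiffOn_metric_inv hO hX i j), φ_metric_inv B hO hX]
  have hj := B.Φ_pd s hO hf j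
  show (B.φ (vol s X) * gi B.D (B.Φ s X) i j) • B.Φ s (pd j f) k = _
  rw [hj]
  rfl

theorem norK_smul (D : DC K) (X : Fin 4 → K) (c : K) (v : Fin 4 → K) :
    norK D X (c • v) = c • norK D X v := by
  unfold norK
  funext k
  simp only [Fin.sum_univ_two, dotProduct_smul, smul_eq_mul, Pi.sub_apply,
    Pi.add_apply, Pi.smul_apply]
  ring

theorem dv_smul_const (E : Derivation ℤ K K) {c : K} (hc : E c = 0) (v : Fin 4 → K) :
    dv E (c • v) = c • dv E v := by
  funext k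
  simp only [dv, Pi.smul_apply, smul_eq_mul, Derivation.leibniz, hc, mul_zero, add_zero]

/-- A surface with flat normal bundle and `Δ H = c H` over the differential field. -/
theorem exists_imm (B : CBr Om K) (hO : IsOpen Om) (hne : Om.Nonempty) {X : E2 → E4}
    (hX : IsSurface s X Om)
    (hflat : ∀ v : E4, ∀ x ∈ Om,
      nablaPerp s X 0 (nablaPerp s X 1 (fun y => normalPart s X y v)) x
      = nablaPerp s X 1 (nablaPerp s X 0 (fun y => normalPart s X y v)) x)
    {c : ℝ} (hc : c ≠ 0) (hH : ∀ x ∈ Om, lap s X (meanCurv s X) x = c • meanCurv s X x) :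
    ∃ I : Imm K, I.D = B.D ∧ I.X = B.Φ s X := by
  have hm := contDiffOn_meanCurv hO hX
  have hsm2 : ∀ (i : Fin 2) {n : E2 → E4}, ContDiffOn ℝ ∞ n Om →
      ContDiffOn ℝ ∞ (nablaPerp s X i n) Om := fun i n hn =>
    contDiffOn_normalPart hO hX (contDiffOn_pd hO hn i)
  have hnab : ∀ (i : Fin 2) {n : E2 → E4}, ContDiffOn ℝ ∞ n Om →
      B.Φ s (nablaPerp s X i n) = norK B.D (B.Φ s X) (dv (B.D.d i) (B.Φ s n)) := by
    intro i n hn
    rw [← B.Φ_pd s hO hn i]
    exact Φ_normalPart B hO hX (contDiffOn_pd hO hn i)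
  refine ⟨⟨B.D, B.Φ s X, delK B s X, B.φ (fun _ => c), delK_pow B hO hX, delK_ne B hO hX,
    B.const_ne hne hc, B.const_der c, ?_, ?_⟩, rfl, rfl⟩
  · intro k
    have h1 : B.Φ s (lap s X (meanCurv s X)) = B.φ (fun _ => c) • B.Φ s (meanCurv s X) := by
      rw [← B.Φ_smul s (contDiffOn_const (c := c)) hm]
      exact B.Φ_congr s (contDiffOn_lap hO hX hm) ((contDiffOn_const (c := c)).smul hm) hH
    have h2 := Φ_lap B hO hX hm k
    rw [h1] at h2
    rw [← Φ_meanCurv B hO hX]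
    simp only [Pi.smul_apply, smul_eq_mul] at h2 ⊢
    have hlin : ∀ a : K, lapK B.D (B.Φ s X) (delK B s X) (2 * a)
        = 2 * lapK B.D (B.Φ s X) (delK B s X) a := by
      intro a
      have h2a : ∀ (j : Fin 2) (b : K), B.D.d j (2 * b) = 2 * B.D.d j b := by
        intro j b
        rw [two_mul, map_add, two_mul]
      simp only [lapK, h2a]
      have : ∀ i : Fin 2, B.D.d i (∑ j, delK B s X * gi B.D (B.Φ s X) i j * (2 * B.D.d j a))
          = 2 * B.D.d i (∑ j, delK B s X * gi B.D (B.Φ s X) i j * B.D.d j a) := by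
        intro i
        rw [← h2a, Finset.mul_sum]
        congr 1
        exact Finset.sum_congr rfl fun j _ => by ring
      simp only [this, ← Finset.mul_sum]
      ring
    rw [hlin, ← h2]
    ring
  · intro k
    have hcs : ContDiffOn ℝ ∞ (fun _ : E2 => (EuclideanSpace.single k 1 : E4)) Om :=
      contDiffOn_const
    have hn := contDiffOn_normalPart hO hX hcs
    have e0 := Φ_normalPart B hO hX hcs
    rw [B.Φ_single s k] at e0
    have hh := B.Φ_congr s (hsm2 0 (hsm2 1 hn)) (hsm2 1 (hsm2 0 hn))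
      (hflat (EuclideanSpace.single k 1))
    rw [hnab 0 (hsm2 1 hn), hnab 1 hn, hnab 1 (hsm2 0 hn), hnab 0 hn, e0] at hh
    have hd : ∀ i, B.D.d i (B.eta s k) = 0 := B.eta_der s k
    simp only [norK_smul, dv_smul_const _ (hd 0), dv_smul_const _ (hd 1)] at hh
    exact smul_right_injective _ (B.eta_ne s k) hh

end Pool.H60.PE
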