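import Pool.Agent.H60.PE.PTr

/-!
# The metric, the normal part and their smoothness

(Adapted from `Pool.Agent.H99.N2.ANor`.)
-/

namespace Pool.H60.PE

open scoped ContDiff
open Matrix
open Pool.Agent.H99.N2 (E2 E4 pd contDiffOn_pd contDiffOn_comp)

theorem ip_comm (s : ℕ) (v w : E4) : ip s v w = ip s w v := by
  unfold ip
  exact Finset.sum_congr rfl fun k _ => by ring

theorem ip_sub (s : ℕ) (u v w : E4) : ip s u (v - w) = ip s u v - ip s u w := by
  unfold ip
  rw [← Finset.sum_sub_distrib]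
  exact Finset.sum_congr rfl fun k _ => by
    simp only [PiLp.sub_apply]
    ring

theorem ip_add (s : ℕ) (u v w : E4) : ip s u (v + w) = ip s u v + ip s u w := by
  unfold ip
  rw [← Finset.sum_add_distrib]
  exact Finset.sum_congr rfl fun k _ => by
    simp only [PiLp.add_apply]
    ring

theorem ip_smul (s : ℕ) (a : ℝ) (u v : E4) : ip s u (a • v) = a * ip s u v := by
  unfold ip
  rw [Finset.mul_sum]
  exact Finset.sum_congr rfl fun k _ => by
    simp only [PiLp.smul_apply, smul_eq_mul]
    ring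

theorem metric_app (s : ℕ) (X : E2 → E4) (x : E2) (i j : Fin 2) :
    metric s X x i j = ip s (pd i X x) (pd j X x) := rfl

theorem metric_symm (s : ℕ) (X : E2 → E4) (x : E2) : metric s X x 1 0 = metric s X x 0 1 := by
  rw [metric_app, metric_app, ip_comm]

theorem metric_det (s : ℕ) (X : E2 → E4) (x : E2) :
    (metric s X x).det
      = metric s X x 0 0 * metric s X x 1 1 - metric s X x 0 1 * metric s X x 0 1 := by
  rw [Matrix.det_fin_two, metric_symm]

theorem metric_inv (s : ℕ) (X : E2 → E4) (x : E2) (i j : Fin 2) :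
    (metric s X x)⁻¹ i j
      = !![metric s X x 1 1, -metric s X x 0 1; -metric s X x 0 1, metric s X x 0 0] i j
      / (metric s X x).det := by
  rw [Matrix.inv_def, Matrix.adjugate_fin_two, metric_symm, Ring.inverse_eq_inv]
  rw [Matrix.smul_apply, smul_eq_mul, div_eq_inv_mul]

/-- `normalPart` is the projection onto the orthogonal complement of the tangent plane. -/
theorem ip_normalPart (s : ℕ) (X : E2 → E4) {x : E2} (hx : (metric s X x).det ≠ 0) (v : E4)
    (k : Fin 2) : ip s (pd k X x) (normalPart s X x v) = 0 := by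
  have hD' := metric_det s X x
  have key : (metric s X x).det⁻¹ * (metric s X x 0 0 * metric s X x 1 1
      - metric s X x 0 1 * metric s X x 0 1) = 1 := by
    rw [← hD', inv_mul_cancel₀ hx]
  unfold normalPart
  simp only [Fin.sum_univ_two, metric_inv, ip_sub, ip_add, ip_smul]
  rw [← metric_app, ← metric_app]
  simp only [Matrix.of_apply, Matrix.cons_val', Matrix.cons_val_zero,
    Matrix.cons_val_one, Matrix.cons_val_fin_one, div_eq_mul_inv]
  fin_cases k
  · simp only [Fin.zero_eta, Fin.isValue]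
    linear_combination (-(ip s (pd 0 X x) v)) * key
  · simp only [Fin.mk_one, Fin.isValue, metric_symm]
    linear_combination (-(ip s (pd 1 X x) v)) * key

theorem contDiffOn_ip (s : ℕ) {Om : Set E2} {f g : E2 → E4} (hf : ContDiffOn ℝ ∞ f Om)
    (hg : ContDiffOn ℝ ∞ g Om) : ContDiffOn ℝ ∞ (fun x => ip s (f x) (g x)) Om := by
  unfold ip
  exact ContDiffOn.sum fun k _ =>
    contDiffOn_const.mul ((contDiffOn_comp hf k).mul (contDiffOn_comp hg k))

theorem contDiffOn_metric {s : ℕ} {Om : Set E2} (hO : IsOpen Om) {X : E2 → E4}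
    (hX : IsSurface s X Om) (i j : Fin 2) : ContDiffOn ℝ ∞ (fun x => metric s X x i j) Om :=
  contDiffOn_ip s (contDiffOn_pd hO hX.1 i) (contDiffOn_pd hO hX.1 j)

theorem contDiffOn_det {s : ℕ} {Om : Set E2} (hO : IsOpen Om) {X : E2 → E4}
    (hX : IsSurface s X Om) : ContDiffOn ℝ ∞ (fun x => (metric s X x).det) Om := by
  have h : (fun x => (metric s X x).det)
      = fun x => metric s X x 0 0 * metric s X x 1 1 - metric s X x 0 1 * metric s X x 0 1 := by
    funext x
    rw [metric_det]
  rw [h]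
  exact ((contDiffOn_metric hO hX 0 0).mul (contDiffOn_metric hO hX 1 1)).sub
    ((contDiffOn_metric hO hX 0 1).mul (contDiffOn_metric hO hX 0 1))

theorem contDiffOn_metric_inv {s : ℕ} {Om : Set E2} (hO : IsOpen Om) {X : E2 → E4}
    (hX : IsSurface s X Om) (i j : Fin 2) :
    ContDiffOn ℝ ∞ (fun x => (metric s X x)⁻¹ i j) Om := by
  have h00 := contDiffOn_metric hO hX 0 0
  have h01 := contDiffOn_metric hO hX 0 1
  have h11 := contDiffOn_metric hO hX 1 1
  have hdet := contDiffOn_det hO hX
  apply ContDiffOn.congr _ (fun x _ => metric_inv s X x i j)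
  apply ContDiffOn.div _ hdet hX.2
  fin_cases i <;> fin_cases j
  · exact h11
  · exact h01.neg
  · exact h01.neg
  · exact h00

theorem contDiffOn_abs_det {s : ℕ} {Om : Set E2} (hO : IsOpen Om) {X : E2 → E4}
    (hX : IsSurface s X Om) : ContDiffOn ℝ ∞ (fun x => |(metric s X x).det|) Om := by
  intro x hx
  have h1 := (contDiffOn_det hO hX) x hx
  have h2 : ContDiffAt ℝ ∞ (fun t : ℝ => |t|) ((metric s X x).det) := contDiffAt_abs (hX.2 x hx)
  exact h2.comp_contDiffWithinAt x h1

theorem vol_ne {s : ℕ} {Om : Set E2} {X : E2 → E4} (hX : IsSurface s X Om) :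
    ∀ x ∈ Om, vol s X x ≠ 0 := fun x hx =>
  (Real.sqrt_pos.2 (abs_pos.2 (hX.2 x hx))).ne'

theorem contDiffOn_vol {s : ℕ} {Om : Set E2} (hO : IsOpen Om) {X : E2 → E4}
    (hX : IsSurface s X Om) : ContDiffOn ℝ ∞ (vol s X) Om :=
  (contDiffOn_abs_det hO hX).sqrt (fun x hx => abs_ne_zero.2 (hX.2 x hx))

theorem contDiffOn_normalPart {s : ℕ} {Om : Set E2} (hO : IsOpen Om) {X : E2 → E4}
    (hX : IsSurface s X Om) {v : E2 → E4} (hv : ContDiffOn ℝ ∞ v Om) :
    ContDiffOn ℝ ∞ (fun x => normalPart s X x (v x)) Om := by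
  unfold normalPart
  apply hv.sub
  apply ContDiffOn.sum
  intro i _
  apply ContDiffOn.sum
  intro j _
  exact ((contDiffOn_metric_inv hO hX i j).mul
    (contDiffOn_ip s (contDiffOn_pd hO hX.1 i) hv)).smul (contDiffOn_pd hO hX.1 j)

theorem contDiffOn_meanCurv {s : ℕ} {Om : Set E2} (hO : IsOpen Om) {X : E2 → E4}
    (hX : IsSurface s X Om) : ContDiffOn ℝ ∞ (meanCurv s X) Om := by
  unfold meanCurv
  apply ContDiffOn.const_smul
  apply ContDiffOn.sum
  intro i _
  apply ContDiffOn.sum
  intro j _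
  exact (contDiffOn_metric_inv hO hX i j).smul
    (contDiffOn_normalPart hO hX (contDiffOn_pd hO (contDiffOn_pd hO hX.1 j) i))

end Pool.H60.PE
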