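import Pool.Agent.H60.PE.CBr
import Pool.Agent.H60.PE.Defs
import Pool.Agent.H99.N2.ATr

/-!
# Rules for the map from smooth functions to the differential field

`Φ s` is the componentwise map on vector valued functions, in which the first `s` components are
multiplied by a square root of `-1`.  (Adapted from `Pool.Agent.H99.N2.ATr`.)
-/

namespace Pool.H60.PE

open scoped ContDiff
open Filter Matrix
open Pool.Agent.H99.N2 (E2 E4 pd contDiffOn_pd contDiffOn_comp pd_comp)

namespace CBr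

variable {Om : Set E2} {K : Type} [Field K]

theorem zero (B : CBr Om K) : B.φ (fun _ => 0) = 0 := by
  have h := B.add (fun _ => 0) (fun _ => 0) contDiffOn_const contDiffOn_const
  simp only [add_zero] at h
  exact left_eq_add.1 h

theorem neg (B : CBr Om K) {f : E2 → ℝ} (hf : ContDiffOn ℝ ∞ f Om) :
    B.φ (fun x => -f x) = -B.φ f := by
  have h := B.add f (fun x => -f x) hf hf.neg
  simp only [add_neg_cancel] at h
  rw [B.zero] at h
  exact (neg_eq_of_add_eq_zero_right h.symm).symm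

theorem sub (B : CBr Om K) {f g : E2 → ℝ} (hf : ContDiffOn ℝ ∞ f Om)
    (hg : ContDiffOn ℝ ∞ g Om) : B.φ (fun x => f x - g x) = B.φ f - B.φ g := by
  have h := B.add f (fun x => -g x) hf hg.neg
  rw [B.neg hg] at h
  simpa only [← sub_eq_add_neg] using h

theorem sum (B : CBr Om K) {ι : Type} (s : Finset ι) (f : ι → E2 → ℝ)
    (hf : ∀ i ∈ s, ContDiffOn ℝ ∞ (f i) Om) :
    B.φ (fun x => ∑ i ∈ s, f i x) = ∑ i ∈ s, B.φ (f i) := by
  classical
  induction s using Finset.induction_on with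
  | empty => simpa using B.zero
  | insert a s ha ih =>
    have h1 : ContDiffOn ℝ ∞ (fun x => ∑ i ∈ s, f i x) Om :=
      ContDiffOn.sum fun i hi => hf i (Finset.mem_insert_of_mem hi)
    have h2 := B.add (f a) (fun x => ∑ i ∈ s, f i x) (hf a (Finset.mem_insert_self a s)) h1
    rw [ih (fun i hi => hf i (Finset.mem_insert_of_mem hi))] at h2
    rw [Finset.sum_insert ha, ← h2]
    congr 1
    funext x
    rw [Finset.sum_insert ha]

theorem inv (B : CBr Om K) {f : E2 → ℝ} (hf : ContDiffOn ℝ ∞ f Om)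
    (h : ∀ x ∈ Om, f x ≠ 0) : B.φ (fun x => (f x)⁻¹) = (B.φ f)⁻¹ := by
  have h1 : ContDiffOn ℝ ∞ (fun x => (f x)⁻¹) Om := hf.inv h
  have h2 := B.mul f (fun x => (f x)⁻¹) hf h1
  have h3 : B.φ (fun x => f x * (f x)⁻¹) = 1 := by
    rw [← B.one]
    exact B.congr _ _ (hf.mul h1) contDiffOn_const fun x hx => mul_inv_cancel₀ (h x hx)
  rw [h3] at h2
  exact eq_inv_of_mul_eq_one_right h2.symm

theorem two (B : CBr Om K) : B.φ (fun _ => 2) = 2 := by
  have h := B.add (fun _ => 1) (fun _ => 1) contDiffOn_const contDiffOn_const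
  rw [B.one] at h
  rw [← one_add_one_eq_two (R := K), ← h]
  congr 1
  funext x
  norm_num

theorem const_der (B : CBr Om K) (c : ℝ) (i : Fin 2) : B.D.d i (B.φ (fun _ => c)) = 0 := by
  rw [← B.der i (fun _ => c) contDiffOn_const, ← B.zero]
  congr 1
  funext x
  simp [pd]

theorem const_ne (B : CBr Om K) (hne : Om.Nonempty) {c : ℝ} (hc : c ≠ 0) :
    B.φ (fun _ => c) ≠ 0 :=
  B.ne _ contDiffOn_const fun _ _ => hc

theorem der_I [CharZero K] (B : CBr Om K) (i : Fin 2) : B.D.d i B.I = 0 := by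
  have hI0 : B.I ≠ 0 := by
    intro h0
    have h := B.hI
    rw [h0] at h
    norm_num at h
  have h := congrArg (B.D.d i) B.hI
  rw [pow_two, Derivation.leibniz, map_neg, Derivation.map_one_eq_zero, smul_eq_mul] at h
  have h2 : (2 * B.I) * B.D.d i B.I = 0 := by linear_combination h
  exact (mul_eq_zero.1 h2).resolve_left (mul_ne_zero two_ne_zero hI0)

/-- the factor of the `k`-th coordinate, a square root of its sign -/
def eta (B : CBr Om K) (s : ℕ) (k : Fin 4) : K := if (k : ℕ) < s then B.I else 1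

theorem eta_ne [CharZero K] (B : CBr Om K) (s : ℕ) (k : Fin 4) : B.eta s k ≠ 0 := by
  unfold eta
  split_ifs
  · intro h0
    have h := B.hI
    rw [h0] at h
    norm_num at h
  · exact one_ne_zero

theorem eta_der [CharZero K] (B : CBr Om K) (s : ℕ) (k : Fin 4) (i : Fin 2) :
    B.D.d i (B.eta s k) = 0 := by
  unfold eta
  split_ifs
  · exact B.der_I i
  · exact Derivation.map_one_eq_zero _

theorem φ_sgn (B : CBr Om K) (s : ℕ) (k : Fin 4) {f : E2 → ℝ} (hf : ContDiffOn ℝ ∞ f Om) :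
    B.φ (fun x => sgn s k * f x) = B.eta s k ^ 2 * B.φ f := by
  unfold eta sgn
  split_ifs
  · rw [B.hI]
    have h : (fun x => (-1 : ℝ) * f x) = fun x => -f x := by
      funext x
      ring
    rw [h, B.neg hf]
    ring
  · have h : (fun x => (1 : ℝ) * f x) = f := by
      funext x
      ring
    rw [h]
    ring

/-- vector valued functions -/
def Φ (B : CBr Om K) (s : ℕ) (f : E2 → E4) : Fin 4 → K :=
  fun k => B.eta s k * B.φ (fun x => f x k)

theorem Φ_add (B : CBr Om K) (s : ℕ) {f g : E2 → E4} (hf : ContDiffOn ℝ ∞ f Om)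
    (hg : ContDiffOn ℝ ∞ g Om) : B.Φ s (fun x => f x + g x) = B.Φ s f + B.Φ s g := by
  funext k
  have h := B.add (fun x => f x k) (fun x => g x k) (contDiffOn_comp hf k) (contDiffOn_comp hg k)
  change B.eta s k * B.φ (fun x => f x k + g x k) = _
  rw [h, mul_add]
  rfl

theorem Φ_sub (B : CBr Om K) (s : ℕ) {f g : E2 → E4} (hf : ContDiffOn ℝ ∞ f Om)
    (hg : ContDiffOn ℝ ∞ g Om) : B.Φ s (fun x => f x - g x) = B.Φ s f - B.Φ s g := by
  funext k
  have h := B.sub (contDiffOn_comp hf k) (contDiffOn_comp hg k)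
  change B.eta s k * B.φ (fun x => f x k - g x k) = _
  rw [h, mul_sub]
  rfl

theorem Φ_neg (B : CBr Om K) (s : ℕ) {f : E2 → E4} (hf : ContDiffOn ℝ ∞ f Om) :
    B.Φ s (fun x => -f x) = -B.Φ s f := by
  funext k
  have h := B.neg (contDiffOn_comp hf k)
  change B.eta s k * B.φ (fun x => -f x k) = -(B.eta s k * B.φ (fun x => f x k))
  rw [h]
  ring

theorem Φ_sum (B : CBr Om K) (s : ℕ) {ι : Type} (S : Finset ι) (f : ι → E2 → E4)
    (hf : ∀ i ∈ S, ContDiffOn ℝ ∞ (f i) Om) :
    B.Φ s (fun x => ∑ i ∈ S, f i x) = ∑ i ∈ S, B.Φ s (f i) := by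
  funext k
  have h := B.sum S (fun i x => f i x k) fun i hi => contDiffOn_comp (hf i hi) k
  rw [Finset.sum_apply]
  change B.eta s k * B.φ (fun x => (∑ i ∈ S, f i x) k)
    = ∑ i ∈ S, B.eta s k * B.φ (fun x => f i x k)
  rw [← Finset.mul_sum, ← h]
  congr 2
  funext x
  simp

theorem Φ_smul (B : CBr Om K) (s : ℕ) {a : E2 → ℝ} {f : E2 → E4} (ha : ContDiffOn ℝ ∞ a Om)
    (hf : ContDiffOn ℝ ∞ f Om) : B.Φ s (fun x => a x • f x) = B.φ a • B.Φ s f := by
  funext k
  have h := B.mul a (fun x => f x k) ha (contDiffOn_comp hf k)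
  change B.eta s k * B.φ (fun x => a x * f x k) = B.φ a * (B.eta s k * B.φ (fun x => f x k))
  rw [h]
  ring

theorem Φ_pd [CharZero K] (B : CBr Om K) (s : ℕ) (hO : IsOpen Om) {f : E2 → E4}
    (hf : ContDiffOn ℝ ∞ f Om) (i : Fin 2) : B.Φ s (pd i f) = dv (B.D.d i) (B.Φ s f) := by
  funext k
  change B.eta s k * B.φ (fun x => pd i f x k) = B.D.d i (B.eta s k * B.φ (fun x => f x k))
  rw [Derivation.leibniz, B.eta_der, smul_zero, add_zero, smul_eq_mul,
    ← B.der i _ (contDiffOn_comp hf k)]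
  congr 1
  exact B.congr _ _ (contDiffOn_comp (contDiffOn_pd hO hf i) k)
    (contDiffOn_pd hO (contDiffOn_comp hf k) i) fun x hx => (pd_comp hO hf i k hx).symm

theorem φ_ip (B : CBr Om K) (s : ℕ) {f g : E2 → E4} (hf : ContDiffOn ℝ ∞ f Om)
    (hg : ContDiffOn ℝ ∞ g Om) :
    B.φ (fun x => ip s (f x) (g x)) = B.Φ s f ⬝ᵥ B.Φ s g := by
  have hk : ∀ k : Fin 4, ContDiffOn ℝ ∞ (fun x => f x k * g x k) Om := fun k =>
    (contDiffOn_comp hf k).mul (contDiffOn_comp hg k)
  have h := B.sum Finset.univ (fun k x => sgn s k * (f x k * g x k)) fun k _ =>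
    contDiffOn_const.mul (hk k)
  unfold ip
  rw [h]
  refine Finset.sum_congr rfl fun k _ => ?_
  rw [B.φ_sgn s k (hk k),
    B.mul (fun x => f x k) (fun x => g x k) (contDiffOn_comp hf k) (contDiffOn_comp hg k)]
  change _ = (B.eta s k * B.φ (fun x => f x k)) * (B.eta s k * B.φ (fun x => g x k))
  ring

theorem Φ_congr (B : CBr Om K) (s : ℕ) {f g : E2 → E4} (hf : ContDiffOn ℝ ∞ f Om)
    (hg : ContDiffOn ℝ ∞ g Om) (h : ∀ x ∈ Om, f x = g x) : B.Φ s f = B.Φ s g := by
  funext k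
  change B.eta s k * B.φ (fun x => f x k) = B.eta s k * B.φ (fun x => g x k)
  congr 1
  exact B.congr _ _ (contDiffOn_comp hf k) (contDiffOn_comp hg k) fun x hx => by rw [h x hx]

theorem Φ_single (B : CBr Om K) (s : ℕ) (k : Fin 4) :
    B.Φ s (fun _ => EuclideanSpace.single k 1) = B.eta s k • Pi.single k 1 := by
  funext j
  change B.eta s j * B.φ (fun _ => (EuclideanSpace.single k (1 : ℝ) : E4) j)
    = B.eta s k * (Pi.single k 1 : Fin 4 → K) j
  by_cases hjk : j = k
  · subst hjk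
    have h := B.one
    simp only [PiLp.single_apply, if_true, Pi.single_eq_same, h]
  · have h := B.zero
    simp only [PiLp.single_apply, hjk, if_false, h, Pi.single_eq_of_ne hjk, mul_zero]

end CBr

end Pool.H60.PE
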